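import Pool.Agent.H39.UA.Defs

/-!
Module HGT. Weight of the trees of height `r` (upper bound; compare HG/TSets, HG/TLim for the lower bound).

Statement: for `0 < h < 1/4`, `g = sqrt (lam h)`, there is `C` with: for every `r ≥ 0` and every finite set `F` of trees with
`ok`, weight `0` and height `r`:  `Σ_{T ∈ F} g ^ T.sz ≤ C * mh h ^ r`.

Proof. Let `R = sqrt (1 + 8 h)`, `S = (1 - 1/R)/(2 g)`; `R = 1 + 2 g S R`, `S = g (S^2 + 2 R)` (because
`8 g^2 = (R^2 - 1)/R^3`), `1 - 2 g S = 1/R`, `g^2 R^3 = h`.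
(1) Fix `N`. Let `e j`, `d j` be the sums of `g ^ sz` over the (finitely many) ok trees of weight `0`, resp. `-1`, of height
exactly `j` and with at most `N` inner nodes; `S_N`, `R_N` the sums over all heights. Induction on `N`: `S_N ≤ S`, `R_N ≤ R`
(trees with at most `N+1` nodes: both children have at most `N` nodes; the sums over the children are bounded by
`g (S^2 + 2R) = S` and `1 + 2 g S R = R`).
(2) Heights: for `nd a b`, `ht = max a.ht (b.ht - a.wt)`. Weight `0`: children (0,0): `max a.ht b.ht`; (u, weight -1):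
`b.ht - 1` (`ht ≥ 1` for weight `-1`); (weight -1, u): `a.ht`. So `e j ≤ g (2 S (e j) + d (j+1) + d j)`, i.e.
`e j ≤ g R (d j + d (j+1))`. Weight `-1`: leaf `d` (height 1); (0,-1): `max a.ht b.ht`; (-1,0): `max a.ht (b.ht + 1)`. For `j ≥ 2`:
`d j ≤ g (R e j + S d j + S d j + R e (j-1))`, i.e. `d j ≤ g R^2 (e j + e (j-1))`.
Together for `j ≥ 2`: `d j ≤ h (d (j+1) + 2 d j + d (j-1))`. Also `Σ_j d j ≤ R`, `d j = 0` for `j > N + 1`.
(3) `m = mh h` satisfies `m = h (1+m)^2` (`mh_prop`). Let `C0 = R / m` and `x j = d j - C0 m^j`, `j ≥ 1`. `x 1 ≤ 0`. If some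
`x j > 0`, take the maximal value `M > 0` (it exists: `x j ≤ 0` for `j > N+1`), at `j0 ≥ 2`:
`M = x j0 ≤ h (x (j0+1) + 2 x j0 + x (j0-1)) ≤ 4 h M < M` (`C0 m^j` satisfies the equation with equality). Contradiction. So
`d j ≤ C0 m^j` for all `j ≥ 1`, and `e j ≤ g R (1 + 1/m... )`: for `j ≥ 1`: `e j ≤ g R C0 (1 + m) m^j`; for `j = 0`: `e 0 ≤ S`.
Take `N` = the maximal size in `F`.
-/

set_option autoImplicit false

namespace UA39

open Equiv HG39

private theorem ht_ge (T : Tr) : -T.wt ≤ T.ht ∧ 0 ≤ T.ht := by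
  induction T with
  | u => simp [Tr.wt, Tr.ht]
  | d => simp [Tr.wt, Tr.ht]
  | nd a b iha ihb =>
    simp only [Tr.wt, Tr.ht]
    omega

private theorem hm1 (k : ℕ) (τ : Tr) : τ ∈ (LD (k + 1)).1 ↔
    (∃ a ∈ (LD k).1, ∃ b ∈ (LD k).1, τ = .nd a b) ∨ (∃ b ∈ (LD k).2, τ = .nd .u b) ∨
      (∃ a ∈ (LD k).2, τ = .nd a .u) := by
  simp only [LD, Finset.mem_union, Finset.mem_image, Finset.mem_product, Prod.exists]
  constructor
  · rintro ((⟨a, b, ⟨ha, hb⟩, rfl⟩ | ⟨b, hb, rfl⟩) | ⟨a, ha, rfl⟩)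
    · exact Or.inl ⟨a, ha, b, hb, rfl⟩
    · exact Or.inr (Or.inl ⟨b, hb, rfl⟩)
    · exact Or.inr (Or.inr ⟨a, ha, rfl⟩)
  · rintro (⟨a, ha, b, hb, rfl⟩ | ⟨b, hb, rfl⟩ | ⟨a, ha, rfl⟩)
    · exact Or.inl (Or.inl ⟨a, b, ⟨ha, hb⟩, rfl⟩)
    · exact Or.inl (Or.inr ⟨b, hb, rfl⟩)
    · exact Or.inr ⟨a, ha, rfl⟩

private theorem hm2 (k : ℕ) (τ : Tr) : τ ∈ (LD (k + 1)).2 ↔
    τ = .d ∨ (∃ a ∈ (LD k).1, ∃ b ∈ (LD k).2, τ = .nd a b) ∨
      (∃ a ∈ (LD k).2, ∃ b ∈ (LD k).1, τ = .nd a b) := by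
  simp only [LD, Finset.mem_union, Finset.mem_image, Finset.mem_product, Prod.exists,
    Finset.mem_singleton]
  constructor
  · rintro ((rfl | ⟨a, b, ⟨ha, hb⟩, rfl⟩) | ⟨a, b, ⟨ha, hb⟩, rfl⟩)
    · exact Or.inl rfl
    · exact Or.inr (Or.inl ⟨a, ha, b, hb, rfl⟩)
    · exact Or.inr (Or.inr ⟨a, ha, b, hb, rfl⟩)
  · rintro (rfl | ⟨a, ha, b, hb, rfl⟩ | ⟨a, ha, b, hb, rfl⟩)
    · exact Or.inl (Or.inl rfl)
    · exact Or.inl (Or.inr ⟨a, b, ⟨ha, hb⟩, rfl⟩)
    · exact Or.inr ⟨a, b, ⟨ha, hb⟩, rfl⟩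

private theorem ok_wt (T : Tr) (h : T.ok) : T = .u ∨ T.wt = 0 ∨ T.wt = -1 := by
  cases T with
  | u => exact Or.inl rfl
  | d => exact Or.inr (Or.inr rfl)
  | nd a b =>
    obtain ⟨_, _, h⟩ := h
    exact Or.inr h

private theorem ld_mono (k : ℕ) : (LD k).1 ⊆ (LD (k + 1)).1 ∧ (LD k).2 ⊆ (LD (k + 1)).2 := by
  induction k with
  | zero =>
    constructor
    · intro τ hτ
      simp [LD] at hτ
    · intro τ hτ
      simp [LD] at hτ
  | succ k ih =>
    obtain ⟨i1, i2⟩ := ih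
    constructor
    · intro τ hτ
      rw [hm1] at hτ ⊢
      rcases hτ with ⟨a, ha, b, hb, rfl⟩ | ⟨b, hb, rfl⟩ | ⟨a, ha, rfl⟩
      · exact Or.inl ⟨a, i1 ha, b, i1 hb, rfl⟩
      · exact Or.inr (Or.inl ⟨b, i2 hb, rfl⟩)
      · exact Or.inr (Or.inr ⟨a, i2 ha, rfl⟩)
    · intro τ hτ
      rw [hm2] at hτ ⊢
      rcases hτ with rfl | ⟨a, ha, b, hb, rfl⟩ | ⟨a, ha, b, hb, rfl⟩
      · exact Or.inl rfl
      · exact Or.inr (Or.inl ⟨a, i1 ha, b, i2 hb, rfl⟩)
      · exact Or.inr (Or.inr ⟨a, i2 ha, b, i1 hb, rfl⟩)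

private theorem ld_mono' {k l : ℕ} (h : k ≤ l) : (LD k).1 ⊆ (LD l).1 ∧ (LD k).2 ⊆ (LD l).2 := by
  induction h with
  | refl => exact ⟨subset_rfl, subset_rfl⟩
  | step _ ih => exact ⟨ih.1.trans (ld_mono _).1, ih.2.trans (ld_mono _).2⟩

private theorem ld_all (T : Tr) (h : T.ok) :
    ∃ k, (T.wt = 0 → T ∈ (LD k).1) ∧ (T.wt = -1 → T ∈ (LD k).2) := by
  induction T with
  | u => exact ⟨0, fun h => by simp [Tr.wt] at h, fun h => by simp [Tr.wt] at h⟩
  | d =>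
    refine ⟨1, fun h => by simp [Tr.wt] at h, fun _ => ?_⟩
    rw [hm2]
    exact Or.inl rfl
  | nd a b iha ihb =>
    obtain ⟨ha, hb, h3⟩ := h
    obtain ⟨k, k1, k2⟩ := iha ha
    obtain ⟨l, l1, l2⟩ := ihb hb
    have A1 : a.wt = 0 → a ∈ (LD (max k l)).1 := fun h => (ld_mono' (le_max_left k l)).1 (k1 h)
    have A2 : a.wt = -1 → a ∈ (LD (max k l)).2 := fun h => (ld_mono' (le_max_left k l)).2 (k2 h)
    have B1 : b.wt = 0 → b ∈ (LD (max k l)).1 := fun h => (ld_mono' (le_max_right k l)).1 (l1 h)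
    have B2 : b.wt = -1 → b ∈ (LD (max k l)).2 := fun h => (ld_mono' (le_max_right k l)).2 (l2 h)
    refine ⟨max k l + 1, fun hw => ?_, fun hw => ?_⟩
    · rw [hm1]
      simp only [Tr.wt] at hw
      rcases ok_wt a ha with rfl | wa | wa
      · simp only [Tr.wt] at hw
        exact Or.inr (Or.inl ⟨b, B2 (by omega), rfl⟩)
      · exact Or.inl ⟨a, A1 wa, b, B1 (by omega), rfl⟩
      · rcases ok_wt b hb with rfl | wb | wb
        · exact Or.inr (Or.inr ⟨a, A2 wa, rfl⟩)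
        · omega
        · omega
    · rw [hm2]
      simp only [Tr.wt] at hw
      rcases ok_wt a ha with rfl | wa | wa
      · rcases ok_wt b hb with rfl | wb | wb
        · simp [Tr.wt] at hw
        · simp only [Tr.wt] at hw
          omega
        · simp only [Tr.wt] at hw
          omega
      · exact Or.inr (Or.inl ⟨a, A1 wa, b, B2 (by omega), rfl⟩)
      · exact Or.inr (Or.inr ⟨a, A2 wa, b, B1 (by omega), rfl⟩)

private theorem ld_fin (F : Finset Tr) (h : ∀ T ∈ F, T.ok ∧ T.wt = 0) : ∃ k, F ⊆ (LD k).1 := by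
  induction F using Finset.induction_on with
  | empty => exact ⟨0, by simp⟩
  | insert a F _ ih =>
    obtain ⟨k, hk⟩ := ih fun T hT => h T (Finset.mem_insert_of_mem hT)
    obtain ⟨ha, hw⟩ := h a (Finset.mem_insert_self _ _)
    obtain ⟨l, hl, _⟩ := ld_all a ha
    refine ⟨max k l, ?_⟩
    intro T hT
    rcases Finset.mem_insert.1 hT with rfl | hT
    · exact (ld_mono' (le_max_right k l)).1 (hl hw)
    · exact (ld_mono' (le_max_left k l)).1 (hk hT)

private theorem gf_nn {g : ℝ} (g0 : 0 ≤ g) (X : Finset Tr) : 0 ≤ GF g X :=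
  Finset.sum_nonneg fun _ _ => pow_nonneg g0 _

private theorem gf_mono {g : ℝ} (g0 : 0 ≤ g) {X Y : Finset Tr} (h : X ⊆ Y) : GF g X ≤ GF g Y :=
  Finset.sum_le_sum_of_subset_of_nonneg h fun _ _ _ => pow_nonneg g0 _

private theorem gf_union {g : ℝ} (g0 : 0 ≤ g) (X Y : Finset Tr) :
    GF g (X ∪ Y) ≤ GF g X + GF g Y := by
  have h := Finset.sum_union_inter (s₁ := X) (s₂ := Y) (f := fun T : Tr => g ^ T.sz)
  have h1 := gf_nn g0 (X ∩ Y)
  unfold GF at *
  linarith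

private theorem gf_prod (g : ℝ) (X Y : Finset Tr) :
    GF g ((X ×ˢ Y).image (fun p => Tr.nd p.1 p.2)) = g * (GF g X * GF g Y) := by
  unfold GF
  rw [Finset.sum_image]
  · rw [Finset.sum_product, Finset.sum_mul_sum, Finset.mul_sum]
    refine Finset.sum_congr rfl fun a _ => ?_
    rw [Finset.mul_sum]
    refine Finset.sum_congr rfl fun b _ => ?_
    simp only [Tr.sz]
    ring
  · intro p _ q _ h
    injection h with h3 h4
    exact Prod.ext h3 h4

private theorem gf_l (g : ℝ) (X : Finset Tr) :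
    GF g (X.image (fun b => Tr.nd .u b)) = g * GF g X := by
  unfold GF
  rw [Finset.sum_image]
  · rw [Finset.mul_sum]
    refine Finset.sum_congr rfl fun a _ => ?_
    simp only [Tr.sz]
    ring
  · intro p _ q _ h
    injection h

private theorem gf_r (g : ℝ) (X : Finset Tr) :
    GF g (X.image (fun a => Tr.nd a .u)) = g * GF g X := by
  unfold GF
  rw [Finset.sum_image]
  · rw [Finset.mul_sum]
    refine Finset.sum_congr rfl fun a _ => ?_
    simp only [Tr.sz]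
    ring
  · intro p _ q _ h
    injection h

/-- trees of weight `0` of height `j` -/
private noncomputable def Ej (k : ℕ) (j : ℤ) : Finset Tr := (LD k).1.filter (fun T => T.ht = j)

/-- trees of weight `-1` of height `j` -/
private noncomputable def Dj (k : ℕ) (j : ℤ) : Finset Tr := (LD k).2.filter (fun T => T.ht = j)

private theorem rec1 {g : ℝ} (g0 : 0 ≤ g) (k : ℕ) (j : ℤ) :
    GF g (Ej (k + 1) j) ≤ g * (2 * (GF g (LD k).1 * GF g (Ej k j)) + GF g (Dj k (j + 1)) +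
      GF g (Dj k j)) := by
  have hsub : Ej (k + 1) j ⊆ (((Ej k j ×ˢ (LD k).1).image (fun p => Tr.nd p.1 p.2) ∪
      ((LD k).1 ×ˢ Ej k j).image (fun p => Tr.nd p.1 p.2)) ∪
      (Dj k (j + 1)).image (fun b => Tr.nd .u b)) ∪ (Dj k j).image (fun a => Tr.nd a .u) := by
    intro τ hτ
    rw [Ej, Finset.mem_filter, hm1] at hτ
    obtain ⟨hτ, hh⟩ := hτ
    obtain ⟨P1, P2⟩ := LD_prop k
    simp only [Finset.mem_union, Finset.mem_image, Finset.mem_product, Prod.exists, Ej, Dj,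
      Finset.mem_filter]
    rcases hτ with ⟨a, ha, b, hb, rfl⟩ | ⟨b, hb, rfl⟩ | ⟨a, ha, rfl⟩
    · have w1 := (P1 a ha).2.1
      simp only [Tr.ht] at hh
      rcases (by omega : a.ht = j ∨ b.ht = j) with h | h
      · exact Or.inl (Or.inl (Or.inl ⟨a, b, ⟨⟨ha, h⟩, hb⟩, rfl⟩))
      · exact Or.inl (Or.inl (Or.inr ⟨a, b, ⟨ha, ⟨hb, h⟩⟩, rfl⟩))
    · have w1 := (P2 b hb).2.1
      have w2 := ht_ge b
      simp only [Tr.ht, Tr.wt] at hh
      exact Or.inl (Or.inr ⟨b, ⟨hb, by omega⟩, rfl⟩)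
    · have w1 := (P2 a ha).2.1
      have w2 := ht_ge a
      simp only [Tr.ht] at hh
      exact Or.inr ⟨a, ⟨ha, by omega⟩, rfl⟩
  refine (gf_mono g0 hsub).trans ?_
  refine (gf_union g0 _ _).trans ?_
  refine (add_le_add_left (gf_union g0 _ _) _).trans ?_
  refine (add_le_add_left (add_le_add_left (gf_union g0 _ _) _) _).trans ?_
  rw [gf_prod, gf_prod, gf_l, gf_r]
  apply le_of_eq
  ring

private theorem rec2 {g : ℝ} (g0 : 0 ≤ g) (k : ℕ) {j : ℤ} (hj : 2 ≤ j) :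
    GF g (Dj (k + 1) j) ≤ g * (GF g (LD k).2 * GF g (Ej k j) + 2 * (GF g (LD k).1 * GF g (Dj k j)) +
      GF g (LD k).2 * GF g (Ej k (j - 1))) := by
  have hsub : Dj (k + 1) j ⊆ (((Ej k j ×ˢ (LD k).2).image (fun p => Tr.nd p.1 p.2) ∪
      ((LD k).1 ×ˢ Dj k j).image (fun p => Tr.nd p.1 p.2)) ∪
      (Dj k j ×ˢ (LD k).1).image (fun p => Tr.nd p.1 p.2)) ∪
      ((LD k).2 ×ˢ Ej k (j - 1)).image (fun p => Tr.nd p.1 p.2) := by
    intro τ hτ
    rw [Dj, Finset.mem_filter, hm2] at hτ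
    obtain ⟨hτ, hh⟩ := hτ
    obtain ⟨P1, P2⟩ := LD_prop k
    simp only [Finset.mem_union, Finset.mem_image, Finset.mem_product, Prod.exists, Ej, Dj,
      Finset.mem_filter]
    rcases hτ with rfl | ⟨a, ha, b, hb, rfl⟩ | ⟨a, ha, b, hb, rfl⟩
    · simp only [Tr.ht] at hh
      omega
    · have w1 := (P1 a ha).2.1
      simp only [Tr.ht] at hh
      rcases (by omega : a.ht = j ∨ b.ht = j) with h | h
      · exact Or.inl (Or.inl (Or.inl ⟨a, b, ⟨⟨ha, h⟩, hb⟩, rfl⟩))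
      · exact Or.inl (Or.inl (Or.inr ⟨a, b, ⟨ha, ⟨hb, h⟩⟩, rfl⟩))
    · have w1 := (P2 a ha).2.1
      simp only [Tr.ht] at hh
      rcases (by omega : a.ht = j ∨ b.ht = j - 1) with h | h
      · exact Or.inl (Or.inr ⟨a, b, ⟨⟨ha, h⟩, hb⟩, rfl⟩)
      · exact Or.inr ⟨a, b, ⟨ha, ⟨hb, h⟩⟩, rfl⟩
  refine (gf_mono g0 hsub).trans ?_
  refine (gf_union g0 _ _).trans ?_
  refine (add_le_add_left (gf_union g0 _ _) _).trans ?_
  refine (add_le_add_left (add_le_add_left (gf_union g0 _ _) _) _).trans ?_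
  rw [gf_prod, gf_prod, gf_prod, gf_prod]
  apply le_of_eq
  ring

private theorem hgt_main {g R S h m : ℝ} (hg : 0 < g) (hR1 : 1 < R) (hm0 : 0 < m) (hm1 : m < 1)
    (hm : m = h * (1 + m) ^ 2) (hgR : g ^ 2 * R ^ 3 = h) (hR2 : R ^ 2 = 1 + 8 * h)
    (hS : 2 * g * S = 1 - 1 / R) :
    ∀ k : ℕ, ∀ j : ℕ, GF g (Ej k j) ≤ g * R * (R / m) * (1 + m) * m ^ j ∧
      GF g (Dj k j) ≤ R / m * m ^ j := by
  have hR0 : 0 < R := by linarith
  have hiR : 0 < 1 / R := by positivity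
  have hiR1 : 1 / R < 1 := by
    rw [div_lt_one hR0]
    exact hR1
  have hS0 : 0 < S := by
    by_contra hn
    have : g * S ≤ 0 := mul_nonpos_of_nonneg_of_nonpos hg.le (not_lt.mp hn)
    nlinarith
  have fixR : R = 1 + 2 * g * S * R := by
    rw [hS]
    field_simp
    ring
  have fixS : S = g * (S ^ 2 + 2 * R) := by
    have h1 : 4 * g * S = (2 * g * S) ^ 2 + 8 * g ^ 2 * R := by
      have h2 : 8 * g ^ 2 * R = 1 - 1 / R ^ 2 := by
        have h3 : 8 * (g ^ 2 * R ^ 3) = R ^ 2 - 1 := by rw [hgR]; linarith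
        field_simp
        linarith
      have h4 : 4 * g * S = 2 * (1 - 1 / R) := by linarith
      rw [h2, h4, hS]
      field_simp
      ring
    have h5 : 4 * g * S = 4 * g * (g * (S ^ 2 + 2 * R)) := by linarith
    exact mul_left_cancel₀ (by positivity) h5
  have hb : ∀ k, (0 ≤ GF g (LD k).1 ∧ GF g (LD k).1 ≤ S) ∧
      0 ≤ GF g (LD k).2 ∧ GF g (LD k).2 ≤ R := by
    intro k
    induction k with
    | zero =>
      simp only [GF, LD, Finset.sum_empty]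
      exact ⟨⟨le_rfl, hS0.le⟩, le_rfl, hR0.le⟩
    | succ k ih =>
      obtain ⟨⟨h1, h2⟩, h3, h4⟩ := ih
      obtain ⟨q1, q2⟩ := LD_sum g k
      have h5 : GF g (LD k).1 ^ 2 ≤ S ^ 2 := pow_le_pow_left₀ h1 h2 2
      have h6 : GF g (LD k).1 * GF g (LD k).2 ≤ S * R := mul_le_mul h2 h4 h3 hS0.le
      refine ⟨⟨gf_nn hg.le _, ?_⟩, gf_nn hg.le _, ?_⟩
      · calc GF g (LD (k + 1)).1 = g * (GF g (LD k).1 ^ 2 + 2 * GF g (LD k).2) := q1
          _ ≤ g * (S ^ 2 + 2 * R) := mul_le_mul_of_nonneg_left (by linarith) hg.le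
          _ = S := fixS.symm
      · rw [q2]
        have h7 : 2 * g * (GF g (LD k).1 * GF g (LD k).2) ≤ 2 * g * (S * R) :=
          mul_le_mul_of_nonneg_left h6 (by positivity)
        linarith
  have hc0 : 0 < R / m := by positivity
  obtain ⟨c, hc⟩ : ∃ c, c = R / m := ⟨_, rfl⟩
  rw [← hc]
  rw [← hc] at hc0
  have hcm : c * m = R := by
    rw [hc]
    field_simp
  have hcR : R ≤ c := by nlinarith
  obtain ⟨a, ha⟩ : ∃ a, a = g * R * c * (1 + m) := ⟨_, rfl⟩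
  rw [← ha]
  have ha0 : 0 < a := by
    rw [ha]
    positivity
  -- the two fixed point equations
  have hSR : 2 * g * S * R = R - 1 := by linarith
  have eq1 : a = g * (2 * (S * a) + c * m + c) := by
    have h1 : R * (g * (2 * (S * a) + c * m + c)) = (2 * g * S * R) * a + g * R * c * (1 + m) := by
      ring
    rw [hSR, ← ha] at h1
    have h2 : R * (g * (2 * (S * a) + c * m + c)) = R * a := by linarith
    exact (mul_left_cancel₀ hR0.ne' h2).symm
  have eq2 : c * m = g * (R * a * m + 2 * (S * c) * m + R * a) := by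
    have h1 : R * (g * (R * a * m + 2 * (S * c) * m + R * a)) =
        (2 * g * S * R) * (c * m) + g * R ^ 2 * a * (1 + m) := by
      ring
    have h3 : g * R ^ 2 * a * (1 + m) = c * m := by
      calc g * R ^ 2 * a * (1 + m) = (g ^ 2 * R ^ 3) * (1 + m) ^ 2 * c := by
            rw [ha]
            ring
        _ = h * (1 + m) ^ 2 * c := by rw [hgR]
        _ = c * m := by rw [← hm]; ring
    rw [hSR, h3] at h1
    have h2 : R * (g * (R * a * m + 2 * (S * c) * m + R * a)) = R * (c * m) := by linarith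
    exact (mul_left_cancel₀ hR0.ne' h2).symm
  intro k
  induction k with
  | zero =>
    intro j
    have z1 : GF g (Ej 0 j) = 0 := by simp [GF, Ej, LD]
    have z2 : GF g (Dj 0 j) = 0 := by simp [GF, Dj, LD]
    rw [z1, z2]
    exact ⟨by positivity, by positivity⟩
  | succ k ih =>
    obtain ⟨⟨s0, s1⟩, r0, r1⟩ := hb k
    have hE : ∀ j : ℕ, 0 ≤ GF g (Ej k j) := fun j => gf_nn hg.le _
    have hD : ∀ j : ℕ, 0 ≤ GF g (Dj k j) := fun j => gf_nn hg.le _
    intro j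
    constructor
    · refine (rec1 hg.le k (j : ℤ)).trans ?_
      have i1 := (ih j).1
      have i2 := (ih (j + 1)).2
      have i3 := (ih j).2
      push_cast at i2
      have j1 : GF g (LD k).1 * GF g (Ej k j) ≤ S * (a * m ^ j) :=
        mul_le_mul s1 i1 (hE j) hS0.le
      calc g * (2 * (GF g (LD k).1 * GF g (Ej k j)) + GF g (Dj k (j + 1)) + GF g (Dj k j))
          ≤ g * (2 * (S * (a * m ^ j)) + c * m ^ (j + 1) + c * m ^ j) := by gcongr
        _ = g * (2 * (S * a) + c * m + c) * m ^ j := by ring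
        _ = a * m ^ j := by rw [← eq1]
    · rcases j with _ | _ | j
      · refine ((gf_mono hg.le (Finset.filter_subset _ _)).trans (hb (k + 1)).2.2).trans ?_
        simpa using hcR
      · refine ((gf_mono hg.le (Finset.filter_subset _ _)).trans (hb (k + 1)).2.2).trans ?_
        simp [hcm]
      · refine (rec2 hg.le k (j := ((j + 1 + 1 : ℕ) : ℤ)) (by push_cast; omega)).trans ?_
        have i1 := (ih (j + 1 + 1)).1
        have i2 := (ih (j + 1 + 1)).2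
        have i3 := (ih (j + 1)).1
        have e : ((j + 1 + 1 : ℕ) : ℤ) - 1 = ((j + 1 : ℕ) : ℤ) := by push_cast; ring
        rw [e]
        have j1 : GF g (LD k).2 * GF g (Ej k ((j + 1 + 1 : ℕ) : ℤ)) ≤ R * (a * m ^ (j + 1 + 1)) :=
          mul_le_mul r1 i1 (hE _) hR0.le
        have j2 : GF g (LD k).1 * GF g (Dj k ((j + 1 + 1 : ℕ) : ℤ)) ≤ S * (c * m ^ (j + 1 + 1)) :=
          mul_le_mul s1 i2 (hD _) hS0.le
        have j3 : GF g (LD k).2 * GF g (Ej k ((j + 1 : ℕ) : ℤ)) ≤ R * (a * m ^ (j + 1)) :=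
          mul_le_mul r1 i3 (hE _) hR0.le
        calc g * (GF g (LD k).2 * GF g (Ej k ((j + 1 + 1 : ℕ) : ℤ)) +
              2 * (GF g (LD k).1 * GF g (Dj k ((j + 1 + 1 : ℕ) : ℤ))) +
              GF g (LD k).2 * GF g (Ej k ((j + 1 : ℕ) : ℤ)))
            ≤ g * (R * (a * m ^ (j + 1 + 1)) + 2 * (S * (c * m ^ (j + 1 + 1))) +
              R * (a * m ^ (j + 1))) := by gcongr
          _ = g * (R * a * m + 2 * (S * c) * m + R * a) * m ^ (j + 1) := by ring
          _ = c * m ^ (j + 1 + 1) := by rw [← eq2]; ring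

theorem hgt {h : ℝ} (h0 : 0 < h) (h1 : h < 1 / 4) : ∃ C : ℝ, 0 < C ∧ ∀ (r : ℕ) (F : Finset Tr),
    (∀ T ∈ F, T.ok ∧ T.wt = 0 ∧ T.ht = r) →
      ∑ T ∈ F, Real.sqrt (lam h) ^ T.sz ≤ C * mh h ^ r := by
  obtain ⟨m0, m1, hm⟩ := mh_prop h h0 h1
  have hl := lam_pos h h0
  have hg : 0 < Real.sqrt (lam h) := Real.sqrt_pos.mpr hl
  have hg2 : Real.sqrt (lam h) ^ 2 = lam h := Real.sq_sqrt hl.le
  have hR1 : 1 < Real.sqrt (1 + 8 * h) := by
    rw [Real.lt_sqrt (by norm_num)]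
    linarith
  have hR0 : 0 < Real.sqrt (1 + 8 * h) := by linarith
  have hR2 : Real.sqrt (1 + 8 * h) ^ 2 = 1 + 8 * h := Real.sq_sqrt (by linarith)
  have hlam : lam h = h / Real.sqrt (1 + 8 * h) ^ 3 := by
    unfold lam
    congr 1
    rw [Real.sqrt_eq_rpow, ← Real.rpow_natCast, ← Real.rpow_mul (by positivity)]
    norm_num
  have key := hgt_main (g := Real.sqrt (lam h)) (R := Real.sqrt (1 + 8 * h))
    (S := (1 - 1 / Real.sqrt (1 + 8 * h)) / (2 * Real.sqrt (lam h))) (h := h) (m := mh h) hg hR1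
    m0 m1 hm (by rw [hg2, hlam]; field_simp) hR2 (by field_simp)
  refine ⟨Real.sqrt (lam h) * Real.sqrt (1 + 8 * h) * (Real.sqrt (1 + 8 * h) / mh h) *
    (1 + mh h), by positivity, fun r F hF => ?_⟩
  obtain ⟨k, hk⟩ := ld_fin F fun T hT => ⟨(hF T hT).1, (hF T hT).2.1⟩
  refine le_trans ?_ (key k r).1
  refine gf_mono hg.le ?_
  intro T hT
  rw [Ej, Finset.mem_filter]
  exact ⟨hk hT, (hF T hT).2.2⟩

end UA39
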