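import Pool.Agent.H39.UA.Defs

/-!
Module TNUM. The number of trees of weight zero.

Statement: `LA (2 m - 1)` has `(m + 1) * b0 (m - 1)` elements (checked for `m ≤ 11`: 2, 12, 128, 1680, ...).

Proof. Let `s k`, `t k` be the numbers of ok trees of weight `0` and of weight `-1` with `k` inner nodes (finite:
induction on `k`). By the structure of the trees (`ok`: the inner nodes have weight `0` or `-1`; so the children of a
node of weight `0` have weights (0,0), (1,-1), (-1,1), where weight `1` is only the leaf `u`; the children of a node of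
weight `-1` have weights (0,-1), (-1,0); the leaf `d` has weight `-1`):
  `s (k+1) = Σ_{i+j=k} s i * s j + 2 * t k`,  `t (k+1) = 2 Σ_{i+j=k} s i * t j`,  `s 0 = 0`, `t 0 = 1`.
Generating series `S = Σ s k X^k`, `R = Σ t k X^k` : `S = X (S^2 + 2 R)`, `R = 1 + 2 X S R`.
Then `R (1 - 2 X S) = 1`; put `U = 1 - 2 X S` : `4 X^2 S (1 - X S) = 8 X^3 R ...` : from the first equation
`S (1 - X S) = 2 X R`, multiply by `4 X`: `(1 - U)(1 + U) = 8 X^2 R`, multiply by `R^2` (U R = 1):
`R^2 - 1 = 8 X^2 R^3`.  `Afs` (UN/PlA, `PA : Afs^2 = 1 + 8 X Afs^3`) has constant coefficient `1`, so `R` is `Afs` with `X`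
replaced by `X^2` (uniqueness: both solve `R^2 - 1 = 8 X^2 R^3`, constant coefficient 1: the difference `E` satisfies
`E * (R + R' - 8 X^2 (R^2 + R R' + R'^2)) = 0` and the second factor has constant coefficient 2).
So `2 X S = 1 - 1/R`.  With `W = Σ b0 i X^i` (in the variable `x = X^2`) and `A = Afs = 1 + 2 x (3 x W' + 2 W)` the claim is
`(1 - 1/A)/2 = x (x W' + 2 W)`, i.e. `A - 1 = 2 A x (x W' + 2 W)`.  Formal proof: put `Y = x W`. First
`8 A Y = (A - 1)(3 - A)` : differentiate: let `V = (A-1)(3-A)/(8A)` (A is a unit) and compare derivatives using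
`A^2 = 1 + 8 x A^3` (so `2 A A' = 8 A^3 + 24 x A^2 A'`): `3 x Y' - Y = 3 x^2 W' + 2 x W = (A - 1)/2`; the formal series `V`
satisfies the same equation `3 x V' - V = (A-1)/2` and the equation `3 x Y' - Y = 0` has only the solution `0` (coefficient
of `x^k`: `(3k - 1) y_k = 0`).  Then `x (x W' + 2 W) = x Y' + Y = ((3 x Y' - Y) + 4 Y)/3 = ((A-1)/2 + (A-1)(3-A)/(2A))/3 =
(A - 1)/(2 A)`.
(Alternatively: evaluate at real `x` and use `f_val`, `A_eq` of UN/PlC and uniqueness of power series.)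
Only the inequality `≤` or the equality as stated is used later; the equality is needed.
-/

set_option autoImplicit false

namespace UA39

open Equiv HG39

private theorem tn_fin_le (k : ℕ) : {T : Tr | T.ok ∧ T.sz ≤ k}.Finite := by
  induction k with
  | zero =>
    apply Set.Finite.subset (Set.toFinite {Tr.u, Tr.d})
    rintro T ⟨h1, h2⟩
    cases T with
    | u => simp
    | d => simp
    | nd a b =>
      simp only [Tr.sz] at h2
      omega
  | succ k ih =>
    apply Set.Finite.subset ((Set.toFinite {Tr.u, Tr.d}).union (Set.Finite.image2 Tr.nd ih ih))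
    rintro T ⟨h1, h2⟩
    cases T with
    | u => left; simp
    | d => left; simp
    | nd a b =>
      right
      simp only [Tr.sz] at h2
      exact ⟨a, ⟨h1.1, by omega⟩, b, ⟨h1.2.1, by omega⟩, rfl⟩

private theorem tn_fin (w : ℤ) (k : ℕ) : {T : Tr | T.ok ∧ T.wt = w ∧ T.sz = k}.Finite :=
  (tn_fin_le k).subset fun _ h => ⟨h.1, h.2.2.le⟩

private noncomputable def tnF (w : ℤ) (k : ℕ) : Finset Tr := (tn_fin w k).toFinset

private theorem tn_mem {w : ℤ} {k : ℕ} {T : Tr} :
    T ∈ tnF w k ↔ T.ok ∧ T.wt = w ∧ T.sz = k := by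
  unfold tnF
  rw [Set.Finite.mem_toFinset]
  exact Iff.rfl

private theorem tn_wt {T : Tr} (h : T.ok) : T = Tr.u ∨ T.wt = 0 ∨ T.wt = -1 := by
  cases T with
  | u => left; rfl
  | d => right; right; rfl
  | nd a b => exact Or.inr h.2.2

private theorem tn_wt' {T : Tr} (h : T.ok) : T.wt = 1 ∨ T.wt = 0 ∨ T.wt = -1 := by
  rcases tn_wt h with h1 | h1
  · left
    rw [h1]
    rfl
  · exact Or.inr h1

private theorem tn_one (k : ℕ) : (tnF 1 k).card = if k = 0 then 1 else 0 := by
  split_ifs with hk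
  · rw [Finset.card_eq_one]
    refine ⟨Tr.u, ?_⟩
    ext T
    rw [tn_mem, Finset.mem_singleton]
    constructor
    · rintro ⟨h1, h2, h3⟩
      rcases tn_wt h1 with h | h | h
      · exact h
      · omega
      · omega
    · rintro rfl
      exact ⟨trivial, rfl, hk.symm⟩
  · rw [Finset.card_eq_zero, Finset.eq_empty_iff_forall_notMem]
    intro T hT
    rw [tn_mem] at hT
    obtain ⟨h1, h2, h3⟩ := hT
    rcases tn_wt h1 with h | h | h
    · subst h
      exact hk h3.symm
    · omega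
    · omega

private theorem tn_two (k : ℕ) : (tnF (-2) k).card = 0 := by
  rw [Finset.card_eq_zero, Finset.eq_empty_iff_forall_notMem]
  intro T hT
  rw [tn_mem] at hT
  obtain ⟨h1, h2, h3⟩ := hT
  rcases tn_wt' h1 with h | h | h <;> omega

private theorem tn_zz : (tnF 0 0).card = 0 := by
  rw [Finset.card_eq_zero, Finset.eq_empty_iff_forall_notMem]
  intro T hT
  rw [tn_mem] at hT
  obtain ⟨h1, h2, h3⟩ := hT
  cases T with
  | u => simp [Tr.wt] at h2
  | d => simp [Tr.wt] at h2
  | nd a b => simp [Tr.sz] at h3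

private theorem tn_mz : (tnF (-1) 0).card = 1 := by
  rw [Finset.card_eq_one]
  refine ⟨Tr.d, ?_⟩
  ext T
  rw [tn_mem, Finset.mem_singleton]
  constructor
  · rintro ⟨h1, h2, h3⟩
    cases T with
    | u => simp [Tr.wt] at h2
    | d => rfl
    | nd a b => simp [Tr.sz] at h3
  · rintro rfl
    exact ⟨trivial, rfl, rfl⟩

private theorem tn_succ (w : ℤ) (hw : w = 0 ∨ w = -1) (k : ℕ) :
    (tnF w (k + 1)).card = ∑ p ∈ Finset.HasAntidiagonal.antidiagonal k,
      ∑ v ∈ ({-1, 0, 1} : Finset ℤ), (tnF v p.1).card * (tnF (w - v) p.2).card := by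
  rw [← Finset.sum_product']
  simp_rw [← Finset.card_product]
  rw [← Finset.card_sigma]
  symm
  refine Finset.card_nbij (fun x => Tr.nd x.2.1 x.2.2) ?_ ?_ ?_
  · rintro ⟨⟨⟨i, j⟩, v⟩, ⟨a, b⟩⟩ h
    rw [Finset.mem_coe, Finset.mem_sigma] at h
    obtain ⟨h1, h2⟩ := h
    rw [Finset.mem_product] at h1 h2
    obtain ⟨h3, h4⟩ := h1
    rw [Finset.HasAntidiagonal.mem_antidiagonal] at h3
    obtain ⟨h5, h6⟩ := h2
    rw [tn_mem] at h5 h6
    obtain ⟨a1, a2, a3⟩ := h5
    obtain ⟨b1, b2, b3⟩ := h6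
    rw [Finset.mem_coe, tn_mem]
    simp only at h3 a1 a2 a3 b1 b2 b3
    refine ⟨⟨a1, b1, ?_⟩, ?_, ?_⟩
    · show a.wt + b.wt = 0 ∨ a.wt + b.wt = -1
      rcases hw with h | h
      · left; omega
      · right; omega
    · show a.wt + b.wt = w
      omega
    · show a.sz + b.sz + 1 = k + 1
      omega
  · rintro ⟨⟨⟨i, j⟩, v⟩, ⟨a, b⟩⟩ h ⟨⟨⟨i', j'⟩, v'⟩, ⟨a', b'⟩⟩ h' he
    rw [Finset.mem_coe, Finset.mem_sigma] at h h'
    have h2 := h.2
    have h2' := h'.2
    rw [Finset.mem_product] at h2 h2'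
    obtain ⟨h5, h6⟩ := h2
    obtain ⟨h5', h6'⟩ := h2'
    rw [tn_mem] at h5 h6 h5' h6'
    obtain ⟨a1, a2, a3⟩ := h5
    obtain ⟨b1, b2, b3⟩ := h6
    obtain ⟨a1', a2', a3'⟩ := h5'
    obtain ⟨b1', b2', b3'⟩ := h6'
    simp only at a1 a2 a3 b1 b2 b3 a1' a2' a3' b1' b2' b3' he
    injection he with e1 e2
    subst e1
    subst e2
    have e3 : i = i' := by omega
    have e4 : j = j' := by omega
    have e5 : v = v' := by omega
    subst e3
    subst e4
    subst e5
    rfl
  · intro T hT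
    rw [Finset.mem_coe, tn_mem] at hT
    obtain ⟨h1, h2, h3⟩ := hT
    cases T with
    | u => simp [Tr.sz] at h3
    | d => simp [Tr.sz] at h3
    | nd a b =>
      obtain ⟨a1, b1, h4⟩ := h1
      change a.wt + b.wt = w at h2
      change a.sz + b.sz + 1 = k + 1 at h3
      refine ⟨⟨⟨⟨a.sz, b.sz⟩, a.wt⟩, ⟨a, b⟩⟩, ?_, rfl⟩
      rw [Finset.mem_coe, Finset.mem_sigma, Finset.mem_product, Finset.mem_product,
        Finset.HasAntidiagonal.mem_antidiagonal, tn_mem, tn_mem]
      refine ⟨⟨?_, ?_⟩, ⟨a1, rfl, rfl⟩, b1, ?_, rfl⟩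
      · show a.sz + b.sz = k
        omega
      · show a.wt ∈ ({-1, 0, 1} : Finset ℤ)
        rcases tn_wt' a1 with h | h | h <;> rw [h] <;> decide
      · show b.wt = w - a.wt
        omega

private noncomputable def tnS : PowerSeries ℝ := PowerSeries.mk fun k => ((tnF 0 k).card : ℝ)
private noncomputable def tnR : PowerSeries ℝ := PowerSeries.mk fun k => ((tnF (-1) k).card : ℝ)

open PowerSeries in
private theorem tn_U : (PowerSeries.mk fun k => ((tnF 1 k).card : ℝ)) = 1 := by
  ext n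
  rw [coeff_mk, tn_one, coeff_one]
  split_ifs <;> simp

open PowerSeries in
private theorem tn_S : tnS = X * (tnS * tnS + 2 * tnR) := by
  have h : tnS * tnS + 2 * tnR = tnR * (PowerSeries.mk fun k => ((tnF 1 k).card : ℝ)) +
      tnS * tnS + (PowerSeries.mk fun k => ((tnF 1 k).card : ℝ)) * tnR := by
    rw [tn_U]
    ring
  rw [h]
  ext n
  rcases n with _ | n
  · rw [coeff_zero_X_mul, tnS, coeff_mk, tn_zz]
    simp
  · rw [coeff_succ_X_mul, map_add, map_add, coeff_mul, coeff_mul, coeff_mul,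
      ← Finset.sum_add_distrib, ← Finset.sum_add_distrib]
    rw [tnS, coeff_mk, tn_succ 0 (Or.inl rfl) n]
    push_cast
    refine Finset.sum_congr rfl fun p _ => ?_
    rw [Finset.sum_insert (by decide), Finset.sum_insert (by decide), Finset.sum_singleton]
    rw [tnR]
    simp only [coeff_mk]
    norm_num
    ring

open PowerSeries in
private theorem tn_R : tnR = 1 + 2 * X * tnS * tnR := by
  have h : (1 : PowerSeries ℝ) + 2 * X * tnS * tnR = 1 + X * (tnR * tnS + tnS * tnR) := by
    ring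
  rw [h]
  ext n
  rcases n with _ | n
  · rw [map_add, coeff_zero_X_mul, tnR, coeff_mk, tn_mz]
    simp
  · rw [map_add, coeff_succ_X_mul, map_add, coeff_mul, coeff_mul, ← Finset.sum_add_distrib]
    rw [tnR, coeff_mk, tn_succ (-1) (Or.inr rfl) n, coeff_one, if_neg (Nat.succ_ne_zero n),
      zero_add]
    push_cast
    refine Finset.sum_congr rfl fun p _ => ?_
    rw [Finset.sum_insert (by decide), Finset.sum_insert (by decide), Finset.sum_singleton]
    rw [tnS]
    simp only [coeff_mk]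
    have h1 : (-1 : ℤ) - 1 = -2 := by norm_num
    have h2 : (-1 : ℤ) - 0 = -1 := by norm_num
    have h3 : (-1 : ℤ) - -1 = 0 := by norm_num
    rw [h1, h2, h3, tn_two]
    push_cast
    ring

open PowerSeries in
private theorem tn_RR : tnR ^ 2 = 1 + 8 * X ^ 2 * tnR ^ 3 := by
  have h1 := tn_S
  have h2 := tn_R
  generalize tnS = S at h1 h2
  generalize tnR = R at h1 h2
  -- `R (1 - 2 X S) = 1`
  have h3 : 2 * X * S * R = R - 1 := by linear_combination -h2
  have h4 : S - X * S ^ 2 = 2 * X * R := by linear_combination h1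
  -- `4 X (S - X S ^ 2) R ^ 2 = 8 X ^ 2 R ^ 3`
  linear_combination (4 * X * R ^ 2) * h4 - (R + 1 - 2 * X * S * R) * h3

open PowerSeries in
private theorem tn_uniq (F G : PowerSeries ℝ) (hF : F ^ 2 = 1 + 8 * X ^ 2 * F ^ 3)
    (hG : G ^ 2 = 1 + 8 * X ^ 2 * G ^ 3) (hF0 : constantCoeff F = 1)
    (hG0 : constantCoeff G = 1) : F = G := by
  have h1 : (F - G) * (F + G - X * (8 * X * (F ^ 2 + F * G + G ^ 2))) = 0 := by
    linear_combination hF - hG
  rcases mul_eq_zero.1 h1 with h | h
  · exact sub_eq_zero.1 h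
  · exfalso
    have h2 := congrArg (coeff 0) h
    rw [map_sub, coeff_zero_X_mul, map_add, coeff_zero_eq_constantCoeff_apply,
      coeff_zero_eq_constantCoeff_apply, hF0, hG0, map_zero] at h2
    norm_num at h2

open PowerSeries in
private theorem tn_main (k : ℕ) : ((tnF 0 (2 * k + 1)).card : ℝ) = ((k : ℝ) + 2) * UN39.b0 k := by
  obtain ⟨P, hP⟩ : ∃ P : PowerSeries ℝ, P = PowerSeries.mk fun i => (3 * (i : ℝ) + 2) * UN39.b0 i :=
    ⟨_, rfl⟩
  obtain ⟨Q, hQ⟩ : ∃ Q : PowerSeries ℝ, Q = PowerSeries.mk fun i => ((i : ℝ) + 2) * UN39.b0 i :=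
    ⟨_, rfl⟩
  have hA : UN39.Afs = 1 + 2 * X * P := by rw [UN39.Afs, hP]
  have hrec : P = Q + 2 * (X * (P * Q)) := by
    rw [hP, hQ]
    ext n
    have h2 : (2 : PowerSeries ℝ) = C 2 := (map_ofNat C 2).symm
    rw [h2, map_add, coeff_C_mul]
    rcases n with _ | n
    · rw [coeff_zero_X_mul, coeff_mk, coeff_mk]
      push_cast
      ring
    · rw [coeff_succ_X_mul, coeff_mk, coeff_mk, coeff_mul,
        Finset.Nat.sum_antidiagonal_eq_sum_range_succ_mk]
      have h3 := UN39.b0_rec (n + 1)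
      have h4 : ∀ i ∈ Finset.range (n + 1),
          (3 * (i : ℝ) + 2) * (((n + 1 : ℕ) : ℝ) + 1 - i) * UN39.b0 i * UN39.b0 (n + 1 - 1 - i) =
          coeff i (PowerSeries.mk fun i => (3 * (i : ℝ) + 2) * UN39.b0 i) *
          coeff (n - i) (PowerSeries.mk fun i => ((i : ℝ) + 2) * UN39.b0 i) := by
        intro i hi
        rw [Finset.mem_range] at hi
        rw [coeff_mk, coeff_mk]
        have h1 : n + 1 - 1 - i = n - i := by omega
        have h2 : ((n - i : ℕ) : ℝ) = n - i := by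
          rw [Nat.cast_sub (by omega)]
        rw [h1, h2]
        push_cast
        ring
      rw [Finset.sum_congr rfl h4] at h3
      rw [← h3]
      push_cast
      ring
  have hPA := UN39.PA
  have hA0 : constantCoeff UN39.Afs = 1 := by
    rw [hA]
    simp
  have hR0 : constantCoeff tnR = 1 := by
    rw [← coeff_zero_eq_constantCoeff_apply, tnR, coeff_mk, tn_mz]
    simp
  have two : (2 : ℕ) ≠ 0 := two_ne_zero
  have e1 : (expand 2 two UN39.Afs) ^ 2 = 1 + 8 * X ^ 2 * (expand 2 two UN39.Afs) ^ 3 := by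
    have h := congrArg (expand 2 two) hPA
    rw [map_pow, map_add, map_one, map_mul, map_mul, map_pow, expand_X, map_ofNat] at h
    exact h
  have e2 : tnR = expand 2 two UN39.Afs := by
    refine tn_uniq _ _ tn_RR e1 hR0 ?_
    rw [constantCoeff_expand]
    exact hA0
  have e3 : expand 2 two UN39.Afs = 1 + 2 * X ^ 2 * expand 2 two P := by
    have h := congrArg (expand 2 two) hA
    rw [map_add, map_one, map_mul, map_mul, expand_X, map_ofNat] at h
    exact h
  have e4 : expand 2 two P = expand 2 two Q + 2 * (X ^ 2 * (expand 2 two P * expand 2 two Q)) := by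
    have h := congrArg (expand 2 two) hrec
    rw [map_add, map_mul, map_mul, map_mul, expand_X, map_ofNat] at h
    exact h
  have e5 : tnS = X * expand 2 two Q := by
    have h1 := tn_R
    rw [e2, e3] at h1
    have h2 : (X * (2 * (1 + 2 * X ^ 2 * expand 2 two P))) * (tnS - X * expand 2 two Q) = 0 := by
      linear_combination -h1 + 2 * X ^ 2 * e4
    rcases mul_eq_zero.1 h2 with h | h
    · exfalso
      rcases mul_eq_zero.1 h with h | h
      · exact X_ne_zero h
      · have h3 := congrArg (coeff 0) h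
        have h4 : (2 : PowerSeries ℝ) * (1 + 2 * X ^ 2 * expand 2 two P) =
            C 2 + X * (4 * X * expand 2 two P) := by
          have h5 : (2 : PowerSeries ℝ) = C 2 := (map_ofNat C 2).symm
          rw [← h5]
          ring
        rw [h4, map_add, coeff_zero_X_mul, coeff_zero_C, map_zero] at h3
        norm_num at h3
    · exact sub_eq_zero.1 h
  have h := congrArg (coeff (2 * k + 1)) e5
  rw [coeff_succ_X_mul, coeff_expand_mul, hQ, coeff_mk, tnS, coeff_mk] at h
  exact h

theorem tnum (m : ℕ) (hm : 1 ≤ m) : (LA (2 * m - 1)).Finite ∧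
    ((LA (2 * m - 1)).ncard : ℝ) = ((m : ℝ) + 1) * UN39.b0 (m - 1) := by
  obtain ⟨k, rfl⟩ : ∃ k, m = k + 1 := ⟨m - 1, by omega⟩
  have h1 : 2 * (k + 1) - 1 = 2 * k + 1 := by omega
  have h2 : k + 1 - 1 = k := by omega
  rw [h1, h2]
  refine ⟨tn_fin 0 (2 * k + 1), ?_⟩
  have h3 := tn_main k
  have h4 : (LA (2 * k + 1)).ncard = (tnF 0 (2 * k + 1)).card :=
    Set.ncard_eq_toFinset_card _ (tn_fin 0 (2 * k + 1))
  rw [h4, h3]
  push_cast
  ring

end UA39
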