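import Pool.Agent.H39.UA.Defs
import Pool.Agent.H39.UN.Law

/-!
Module PALL. Counting pairs (planar triangulation with a leaf at `w`, vertex different from the tip).

Proof. `law_fix` (UN/Law, with `n = m`, `v = m + 2`, `ws = [w]`) gives
`#{α ∈ TS f (m+2) | Leaf f α w} = (K (1 :: replicate (2m-1) 3)).coeff (m+1)`, and this is
`(2m-1)! 3^(2m-1) * kc [1] (2m-1) (m+1) = (2m-1)! 3^(2m-1) * b0 (m-1)` (`kc_coeff`, `bb`, `bc`, `b0`; for `m = 1` too).
For every such `α` the representatives `x` (`rep f α x = x`) are in bijection with the cycles of `f * α`, so there are `m + 2` of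
them; `f (f w)` is a fixed point of `f * α` (`f (α (ffw)) = f (f w)` because `α (f w) = f f w`), so `ffw` is a representative,
and at most `m + 1` remain. Sum over the distances `r < 6m + 1` of disjoint sets: at most the number of pairs `(α, x)`.
-/

set_option autoImplicit false

namespace UA39

open Equiv HG39

variable {D : Type} [Fintype D] [DecidableEq D]

omit [Fintype D] [DecidableEq D] in
/-- a vertex is determined by its representative -/
theorem rep_inj {f α : Perm D} {x y : D} (hx : rep f α x = x) (hy : rep f α y = y)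
    (h : Quotient.mk (Equiv.Perm.SameCycle.setoid (f * α)) x =
      Quotient.mk (Equiv.Perm.SameCycle.setoid (f * α)) y) : x = y := by
  rw [← hx, ← hy]
  unfold rep
  rw [h]

omit [Fintype D] [DecidableEq D] in
/-- the tip of a leaf is a representative -/
theorem rep_tip {f α : Perm D} (hinv : ∀ d, α (α d) = d) {w : D} (hl : Leaf f α w) :
    rep f α (f (f w)) = f (f w) := by
  have h1 : α (f (f w)) = f w := by
    unfold Leaf at hl
    rw [← hl, hinv]
  have h2 : (f * α) (f (f w)) = f (f w) := by
    rw [Perm.mul_apply, h1]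
  have h3 : (Equiv.Perm.SameCycle.setoid (f * α)).r (rep f α (f (f w))) (f (f w)) :=
    Quotient.exact (Quotient.out_eq (Quotient.mk (Equiv.Perm.SameCycle.setoid (f * α)) (f (f w))))
  have h4 : (f * α).SameCycle (f (f w)) (rep f α (f (f w))) := Equiv.Perm.SameCycle.symm h3
  exact (h4.eq_of_left h2).symm

open Classical in
theorem rep_card {f α : Perm D} {v : ℕ} (hc : cyc (f * α) = v + 1) (hinv : ∀ d, α (α d) = d)
    {w : D} (hl : Leaf f α w) :
    (Finset.univ.filter (fun x : D => rep f α x = x ∧ x ≠ f (f w))).card ≤ v := by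
  have h1 : (Finset.univ.filter (fun x : D => rep f α x = x)).card ≤ v + 1 := by
    rw [← hc]
    unfold cyc
    rw [Nat.card_eq_fintype_card]
    refine Finset.card_le_card_of_injOn
      (fun x => Quotient.mk (Equiv.Perm.SameCycle.setoid (f * α)) x)
      (fun x _ => Finset.mem_coe.2 (Finset.mem_univ _)) ?_
    intro x hx y hy hxy
    exact rep_inj (Finset.mem_filter.1 hx).2 (Finset.mem_filter.1 hy).2 hxy
  have h2 : Finset.univ.filter (fun x : D => rep f α x = x ∧ x ≠ f (f w)) =
      (Finset.univ.filter (fun x : D => rep f α x = x)).erase (f (f w)) := by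
    ext x
    simp only [Finset.mem_filter, Finset.mem_univ, true_and, Finset.mem_erase]
    tauto
  have h3 : f (f w) ∈ Finset.univ.filter (fun x : D => rep f α x = x) :=
    Finset.mem_filter.2 ⟨Finset.mem_univ _, rep_tip hinv hl⟩
  rw [h2, Finset.card_erase_of_mem h3]
  omega

theorem ps_all {f : Perm D} (hf : TF f) {m : ℕ} (hm : 1 ≤ m) (hD : Fintype.card D = 6 * m) (w : D) :
    ∑ r ∈ Finset.range (6 * m + 1), ((PS f m w r).ncard : ℝ) ≤
      ((2 * m - 1).factorial * 3 ^ (2 * m - 1) : ℕ) * (((m : ℝ) + 1) * UN39.b0 (m - 1)) := by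
  classical
  have hws : (tri f [w]).Nodup := by
    rw [← UN39.lawa_flat]
    simpa using UN39.lawa_nd hf w
  have h1 := UN39.law_fix hf hD hm (m + 2) [w] hws (by simp)
  rw [List.length_singleton] at h1
  set A : Finset (Perm D) :=
    Finset.univ.filter (fun α : Perm D => α ∈ TS f (m + 2) ∧ ∀ w' ∈ [w], Leaf f α w') with hA
  have hmem : ∀ α, α ∈ A ↔ α ∈ TS f (m + 2) ∧ Leaf f α w := by
    intro α
    rw [hA, Finset.mem_filter]
    simp
  -- the number of triangulations
  have h2 : (A.card : ℝ) = ((2 * m - 1).factorial * 3 ^ (2 * m - 1) : ℕ) * UN39.b0 (m - 1) := by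
    have e1 : 2 * (m - 1) + 1 = 2 * m - 1 := by omega
    have e2 : m - 1 + 2 = m + 2 - 1 := by omega
    have e3 : UN39.b0 (m - 1) = (((2 * m - 1).factorial : ℝ) * 3 ^ (2 * m - 1))⁻¹ *
        ((UN39.K (List.replicate 1 1 ++ List.replicate (2 * m - 1) 3)).coeff (m + 2 - 1) : ℝ) := by
      unfold UN39.b0 UN39.bc UN39.bb UN39.kk
      rw [e1, e2, Polynomial.coeff_C_mul, Polynomial.coeff_map, eq_natCast]
      rfl
    rw [e3, h1]
    have h3 : (((2 * m - 1).factorial : ℝ) * 3 ^ (2 * m - 1)) ≠ 0 := by positivity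
    push_cast
    rw [mul_inv_cancel_left₀ h3]
  -- the pairs
  set B : Finset (Perm D × D) := (A ×ˢ (Finset.univ : Finset D)).filter
    (fun p => rep f p.1 p.2 = p.2 ∧ p.2 ≠ f (f w)) with hB
  have h3 : B.card ≤ A.card * (m + 1) := by
    have e1 : B = A.biUnion fun α => (Finset.univ.filter
        (fun x : D => rep f α x = x ∧ x ≠ f (f w))).image fun x => (α, x) := by
      ext p
      rw [hB]
      simp only [Finset.mem_filter, Finset.mem_product, Finset.mem_univ, and_true,
        Finset.mem_biUnion, Finset.mem_image, true_and]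
      constructor
      · rintro ⟨g1, g2⟩
        exact ⟨p.1, g1, p.2, g2, rfl⟩
      · rintro ⟨α, g1, x, g2, rfl⟩
        exact ⟨g1, g2⟩
    rw [e1]
    refine Finset.card_biUnion_le_card_mul _ _ _ fun α hα => ?_
    obtain ⟨g1, g2⟩ := (hmem α).1 hα
    exact Finset.card_image_le.trans (rep_card g1.2 g1.1.inv g2)
  have h4 : ∀ r : ℕ, (PS f m w r).ncard = (B.filter fun p => dst f p.1 p.2 w = r).card := by
    intro r
    rw [← Set.ncard_coe_finset]
    congr 1
    ext p
    rw [Finset.mem_coe, Finset.mem_filter, hB, Finset.mem_filter, Finset.mem_product, hmem]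
    simp only [PS, Set.mem_setOf_eq, Finset.mem_univ, and_true]
    tauto
  have h5 : ∑ r ∈ Finset.range (6 * m + 1), (PS f m w r).ncard ≤ B.card := by
    simp only [h4]
    rw [Finset.sum_card_fiberwise_eq_card_filter]
    exact Finset.card_filter_le _ _
  have h6 : (∑ r ∈ Finset.range (6 * m + 1), ((PS f m w r).ncard : ℝ)) ≤
      (A.card : ℝ) * ((m : ℝ) + 1) := by
    exact_mod_cast h5.trans h3
  refine h6.trans (le_of_eq ?_)
  rw [h2]
  ring

end UA39
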