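import Pool.Agent.H39.UA.Cla
import Pool.Agent.H39.HG.TenLab
import Pool.Agent.H39.HG.ULab
import Pool.Agent.H39.HG.GraphLab

/-!
Module CLB (P186, part A). Distances in the closed tree: the vertex `x` (end of the last unmatched down step) is at distance `r`
from `w`.

Proof. `ten_ten` gives a `Ten` on `tn` (base `inr 0`, radius `r + 1`); `As` is not empty (length `r + 1`, `slc_len`),
`As = Cs ++ [A]`. `ten_lab`: `λ d := dst (F6 f A) d = ℓ d` on `tri (inr 0 :: ..)`, `≥ r + 1` elsewhere (the three darts `inr 3, 4, 5`).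
`Lab (F6 f) tn λ` by `dst_lab`. `unit_Lab` (leaf `inr 3`, `λ (inr 5) ≥ r + 1 ≠ 0`): `Lab (F6 f) (sumCongr α 1) λ`. So `λ ∘ inl` satisfies
`Lab f α` (the non-legs of `sumCongr α 1` are exactly the `inl d`; `SameCycle` of `sumCongr f h6 * sumCongr α 1` between `inl`s is
`SameCycle` of `f * α`). Let `a` be a dart with `λ (inl a) = 0` (`ex0`), `x := rep f α a`. `lab_dst`: `dst f α x d = λ (inl d)`
(`λ (inl x) = 0` by `lab_same`). Labels: `emb`, `Slc.le`, `Slc.lfe`: `ℓ (inr 0) = ℓ (inr 1) = r + 1`, `ℓ (inr 2) = r`; `ver` for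
`inr 1 ~ inl (f w)`: `ℓ (inl (f w)) = ℓ (inr 2) = r`, `ℓ (inl (f f w)) = ℓ (inr 1) = r + 1`, and `f w` starts where `w` ends: by `ver`
at `inr 2 ~ inl (f f w)`: `ℓ (inl w) = ℓ (f (inl (f f w))) = ℓ (inr 2) = r`. So `dst f α x w = r`, and `x ≠ f f w` since
`λ (inl (f f w)) = r + 1 ≠ 0`. `SameCycle (F6 f A) (inl x)` on `tn`: both have `λ = 0` (`Lab.zro` for `dst_lab`; for `x`: `λ (inl x) = 0`).
-/

set_option autoImplicit false

namespace UA39

open Equiv HG39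

variable {D : Type} [Fintype D] [DecidableEq D]
variable {f : Perm D} {m : ℕ} {w : D} {r : ℕ} {T : Tr} {bs : List D}

omit [Fintype D] [DecidableEq D] in
private theorem cb_leg {f α : Perm D} (h : PT f α []) (d : D) : α d ≠ d := by
  intro h1
  have h2 := (h.leg d).1 h1
  simp [tri] at h2

omit [Fintype D] [DecidableEq D] in
private theorem cb_zpow (f α : Perm D) (k : ℤ) (d : D) :
    ((F6 f * Equiv.sumCongr α 1 : Perm (D ⊕ Fin 6)) ^ k) (Sum.inl d) =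
      Sum.inl (((f * α) ^ k) d) := by
  have hE : (F6 f * Equiv.sumCongr α 1 : Perm (D ⊕ Fin 6)) =
      Equiv.Perm.sumCongrHom D (Fin 6) (f * α, h6) := by
    ext x
    rcases x with x | x <;> rfl
  rw [hE, ← map_zpow]
  rfl

omit [Fintype D] [DecidableEq D] in
private theorem cb_same {f α : Perm D} {a b : D}
    (h : (F6 f * Equiv.sumCongr α 1 : Perm (D ⊕ Fin 6)).SameCycle (Sum.inl a) (Sum.inl b)) :
    (f * α).SameCycle a b := by
  obtain ⟨k, hk⟩ := h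
  rw [cb_zpow] at hk
  exact ⟨k, Sum.inl_injective hk⟩

omit [Fintype D] [DecidableEq D] in
private theorem cb_lab {f α : Perm D} {φ : D ⊕ Fin 6 → ℤ}
    (h : Lab (F6 f) (Equiv.sumCongr α 1 : Perm (D ⊕ Fin 6)) φ) :
    Lab f α (fun d => φ (Sum.inl d)) := by
  have hn : ∀ d, α d ≠ d → (Equiv.sumCongr α 1 : Perm (D ⊕ Fin 6)) (Sum.inl d) ≠ Sum.inl d := by
    intro d hd h1
    exact hd (Sum.inl_injective h1)
  have hi : ∀ x : D ⊕ Fin 6, (Equiv.sumCongr α 1 : Perm (D ⊕ Fin 6)) x ≠ x →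
      ∃ d, x = Sum.inl d ∧ α d ≠ d := by
    intro x hx
    rcases x with x | x
    · refine ⟨x, rfl, fun h1 => hx ?_⟩
      change Sum.inl (α x) = Sum.inl x
      rw [h1]
    · exact absurd rfl hx
  refine ⟨?_, ?_, ?_, ?_, ?_, ?_⟩
  · intro d hd
    exact h.nn _ (hn d hd)
  · intro d hd
    exact h.ver _ (hn d hd)
  · intro d hd
    exact h.lip _ (hn d hd)
  · intro d hd hp
    obtain ⟨x, h1, h2, h3⟩ := h.dsc _ (hn d hd) hp
    obtain ⟨d', rfl, h4⟩ := hi x h2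
    exact ⟨d', cb_same h1, h4, h3⟩
  · intro d d' hd hd' h1 h2
    exact cb_same (h.zro _ _ (hn d hd) (hn d' hd') h1 h2)
  · obtain ⟨x, h1, h2⟩ := h.ex0
    obtain ⟨d', rfl, h4⟩ := hi x h1
    exact ⟨d', h4, h2⟩

private theorem cb_out (f : Perm D) (l : List D) (i : Fin 6) (hi : 3 ≤ i.val) :
    (Sum.inr i : D ⊕ Fin 6) ∉ tri (F6 f) (Sum.inr 0 :: l.map Sum.inl) := by
  rw [mem_tri]
  rintro ⟨b, hb, h⟩
  rcases List.mem_cons.1 hb with rfl | hb
  · have e1 : F6 f (Sum.inr 0 : D ⊕ Fin 6) = Sum.inr 1 := rfl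
    have e2 : F6 f (Sum.inr 1 : D ⊕ Fin 6) = Sum.inr 2 := rfl
    rw [e1, e2] at h
    rcases h with h | h | h
    all_goals
      have h1 := Sum.inr_injective h
      subst h1
      revert hi
      decide
  · obtain ⟨d, -, rfl⟩ := List.mem_map.1 hb
    rcases h with h | h | h
    · cases h
    · cases h
    · cases h

theorem clb (H : Hy f m w r T bs) {α : Perm D}
    (hα : rmv (F6 f) (tn f w bs T) (Sum.inr 3) = Equiv.sumCongr α 1) :
    ∃ x : D, (α, x) ∈ PS f m w r ∧ ∃ (ℓ : D ⊕ Fin 6 → ℤ) (lv : List ((D ⊕ Fin 6) × Bool))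
      (pr : List ((D ⊕ Fin 6) × (D ⊕ Fin 6))) (As Bs Cs : List (D ⊕ Fin 6)) (A : D ⊕ Fin 6),
      Ten (F6 f) (tn f w bs T) ℓ (r + 1) (Sum.inr 0) T ((f w :: bs).map Sum.inl) lv pr As Bs ∧
      As = Cs ++ [A] ∧ (F6 f * tn f w bs T).SameCycle (F6 f A) (Sum.inl x) := by
  obtain ⟨hTF, hPT, hLf⟩ := bx_pt H
  obtain ⟨hAdm, hLen⟩ := bx_adm H
  obtain ⟨hPt, -, t0, t3, t4, t1, t2⟩ := cla H
  obtain ⟨α', hα', hTS, hLw⟩ := clr H
  have hαα : α' = α := by
    rw [hα] at hα'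
    ext d
    have h1 := Equiv.congr_fun hα' (Sum.inl d)
    exact (Sum.inl_injective h1).symm
  subst hαα
  obtain ⟨ℓ, lv, pr, As, Bs, hTen⟩ := ten_ten hTF hPT hLf (r := r + 1) (K := m + 1) (by omega) hAdm hLen
  have hTen' : Ten (F6 f) (tn f w bs T) ℓ (r + 1) (Sum.inr 0) T ((f w :: bs).map Sum.inl) lv pr As Bs :=
    hTen
  have hS := hTen'.slc
  obtain ⟨-, hlA, -⟩ := slc_len hTF hS
  obtain ⟨Cs, A, hA⟩ : ∃ Cs A, As = Cs ++ [A] := by
    have h1 : As ≠ [] := by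
      intro h1
      rw [h1] at hlA
      simp at hlA
    exact ⟨As.dropLast, As.getLast h1, (List.dropLast_append_getLast h1).symm⟩
  obtain ⟨-, hin, hout, -⟩ := ten_lab hTF hPt hTen' hA
  obtain ⟨-, -, -, -, hl2⟩ := slc_lev hTF hS
  have hlab := dst_lab hTF hPt (F6 f A)
  have ver := fun d => hlab.ver d (cb_leg hPt d)
  have e0 : F6 f (Sum.inr 0 : D ⊕ Fin 6) = Sum.inr 1 := rfl
  have e1 : F6 f (Sum.inr 1 : D ⊕ Fin 6) = Sum.inr 2 := rfl
  have e3 : F6 f (Sum.inr 3 : D ⊕ Fin 6) = Sum.inr 4 := rfl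
  have e4 : F6 f (Sum.inr 4 : D ⊕ Fin 6) = Sum.inr 5 := rfl
  have el : ∀ d : D, F6 f (Sum.inl d : D ⊕ Fin 6) = Sum.inl (f d) := fun _ => rfl
  have m0 : (Sum.inr 0 : D ⊕ Fin 6) ∈ tri (F6 f) (Sum.inr 0 :: (f w :: bs).map Sum.inl) := by
    rw [mem_tri]
    exact ⟨_, List.mem_cons_self, Or.inl rfl⟩
  have m1 : (Sum.inr 1 : D ⊕ Fin 6) ∈ tri (F6 f) (Sum.inr 0 :: (f w :: bs).map Sum.inl) := by
    rw [← e0, tri_closed hTF]
    exact m0
  have m2 : (Sum.inr 2 : D ⊕ Fin 6) ∈ tri (F6 f) (Sum.inr 0 :: (f w :: bs).map Sum.inl) := by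
    rw [← e1, tri_closed hTF]
    exact m1
  have l1 := hin _ m1
  have l2 := hin _ m2
  have k1 := hS.lfe
  rw [e0] at k1 hl2
  rw [e1] at hl2
  rw [k1] at l1
  rw [hl2] at l2
  have t1' : tn f w bs T (Sum.inl (f w)) = Sum.inr 1 := by rw [← t1, hPt.inv]
  have t2' : tn f w bs T (Sum.inl (f (f w))) = Sum.inr 2 := by rw [← t2, hPt.inv]
  have v1 := ver (Sum.inl (f w))
  have v2 := ver (Sum.inl (f (f w)))
  rw [el, t1'] at v1
  rw [el, t2', H.tf.three] at v2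
  rw [l1] at v1
  rw [l2] at v2
  -- removal of the unit
  have hl3 : Leaf (F6 f) (tn f w bs T) (Sum.inr 3) := by
    unfold Leaf
    rw [e3, e4]
    exact t4
  have h5 : (fun d => (dst (F6 f) (tn f w bs T) (F6 f A) d : ℤ)) (F6 f (F6 f (Sum.inr 3))) ≠ 0 := by
    rw [e3, e4]
    have h6 := hout (Sum.inr 5) (cb_out f (f w :: bs) 5 (by decide))
    simp only
    omega
  have hcard : 3 * ([] : List (D ⊕ Fin 6)).length + 6 < Fintype.card (D ⊕ Fin 6) := by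
    rw [Fintype.card_sum, H.hD, Fintype.card_fin, List.length_nil]
    have := H.hm
    omega
  have hLab1 := unit_Lab hTF hPt hl3 hcard hlab h5
  rw [hα] at hLab1
  have hLab := cb_lab hLab1
  obtain ⟨a, ha, ha0⟩ := hLab.ex0
  have hPα := hTS.1
  have hsx : (f * α').SameCycle a (rep f α' a) := by
    have h1 : Quotient.mk (Equiv.Perm.SameCycle.setoid (f * α')) (rep f α' a) =
        Quotient.mk (Equiv.Perm.SameCycle.setoid (f * α')) a := Quotient.out_eq _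
    exact (Quotient.exact h1).symm
  have hrx : rep f α' (rep f α' a) = rep f α' a := by
    have h1 : Quotient.mk (Equiv.Perm.SameCycle.setoid (f * α')) (rep f α' a) =
        Quotient.mk (Equiv.Perm.SameCycle.setoid (f * α')) a := Quotient.out_eq _
    unfold rep at h1 ⊢
    rw [h1]
  obtain ⟨hx0, -⟩ := lab_same H.tf hPα hLab a _ ha hsx
  rw [ha0] at hx0
  have hx0' : (dst (F6 f) (tn f w bs T) (F6 f A) (Sum.inl (rep f α' a)) : ℤ) = 0 := hx0.symm
  have hd := lab_dst H.tf hPα hLab (rep f α' a) hx0'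
  refine ⟨rep f α' a, ⟨hTS, hLw, hrx, ?_, ?_⟩, ℓ, lv, pr, As, Bs, Cs, A, hTen', hA, ?_⟩
  · intro h1
    have h1' : rep f α' a = f (f w) := h1
    rw [h1', v1] at hx0'
    push_cast at hx0'
    omega
  · have h1 := hd w
    rw [v2] at h1
    push_cast at h1
    have h2 : (r : ℤ) = (dst f α' (rep f α' a) w : ℤ) := by rw [← h1]; ring
    exact_mod_cast h2.symm
  · refine hlab.zro _ _ (cb_leg hPt _) (cb_leg hPt _) ?_ hx0'
    have h1 := dst_self (F6 f) (tn f w bs T) (F6 f A) (F6 f A) (Equiv.Perm.SameCycle.refl _ _)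
    simp only [h1]
    rfl

end UA39
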