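import Pool.Agent.H39.UA.Cla
import Pool.Agent.H39.HG.TenMult

/-!
Module CLC (P186, part A). Decoding.

Proof. `ins_rmv` (leaf `inr 3`, `bs = []`, `6 < 6 m + 6`) with `cla`: `tn = ins (F6 f) (sumCongr α 1) (inr 3) (inr 0) (inl (f w))` for
both, so the two maps `tn` are equal. Both tentacles live on this map, with the same base. `F6 f A` and `F6 f A'` are in the same
vertex (the one of `inl x`). Now as in `ten_mult_inj` (HG/TenMult): the functions `dst (F6 f A)` and `dst (F6 f A')` are equal (`dst_comm`,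
`dst_congr`), so by `ten_lab`, `slc_lab` both slices are slices for the same labels, the left boundaries are equal (`slc_heads`,
`geo_unique`), and `slc_unique` gives `T = T'` and equal lists of roots; `map inl` is injective.
-/

set_option autoImplicit false

namespace UA39

open Equiv HG39

variable {D : Type} [Fintype D] [DecidableEq D]
variable {f : Perm D} {m : ℕ} {w : D} {r : ℕ} {T T' : Tr} {bs bs' : List D}

theorem clc (H : Hy f m w r T bs) (H' : Hy f m w r T' bs') {α : Perm D} {x : D}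
    (hα : rmv (F6 f) (tn f w bs T) (Sum.inr 3) = Equiv.sumCongr α 1)
    (hα' : rmv (F6 f) (tn f w bs' T') (Sum.inr 3) = Equiv.sumCongr α 1)
    {ℓ ℓ' : D ⊕ Fin 6 → ℤ} {lv lv' : List ((D ⊕ Fin 6) × Bool)}
    {pr pr' : List ((D ⊕ Fin 6) × (D ⊕ Fin 6))} {As Bs Cs As' Bs' Cs' : List (D ⊕ Fin 6)}
    {A A' : D ⊕ Fin 6}
    (h : Ten (F6 f) (tn f w bs T) ℓ (r + 1) (Sum.inr 0) T ((f w :: bs).map Sum.inl) lv pr As Bs)
    (hA : As = Cs ++ [A]) (hx : (F6 f * tn f w bs T).SameCycle (F6 f A) (Sum.inl x))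
    (h' : Ten (F6 f) (tn f w bs' T') ℓ' (r + 1) (Sum.inr 0) T' ((f w :: bs').map Sum.inl) lv' pr'
      As' Bs')
    (hA' : As' = Cs' ++ [A']) (hx' : (F6 f * tn f w bs' T').SameCycle (F6 f A') (Sum.inl x)) :
    T = T' ∧ bs = bs' := by
  obtain ⟨hF, _, _⟩ := bx_pt H
  obtain ⟨c1, c2, c3, c4, c5, c6, c7⟩ := cla H
  obtain ⟨d1, d2, d3, d4, d5, d6, d7⟩ := cla H'
  have hm := H.hm
  have hN : 3 * ([] : List (D ⊕ Fin 6)).length + 6 < Fintype.card (D ⊕ Fin 6) := by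
    rw [Fintype.card_sum, H.hD, Fintype.card_fin, List.length_nil]
    omega
  have e0 : F6 f (Sum.inr 0) = (Sum.inr 1 : D ⊕ Fin 6) := rfl
  have e1 := ins_rmv hF c1 (w := Sum.inr 3) c5 hN
  have e2 := ins_rmv hF d1 (w := Sum.inr 3) d5 hN
  rw [c4, e0, c6, hα] at e1
  rw [d4, e0, d6, hα'] at e2
  have heq : tn f w bs T = tn f w bs' T' := e1.symm.trans e2
  rw [← heq] at h' hx'
  obtain ⟨_, a2, _, a4⟩ := ten_lab hF c1 h hA
  obtain ⟨_, b2, _, b4⟩ := ten_lab hF c1 h' hA'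
  have hd : (fun d => (dst (F6 f) (tn f w bs T) (F6 f A') d : ℤ)) =
      fun d => (dst (F6 f) (tn f w bs T) (F6 f A) d : ℤ) := by
    funext d
    rw [dst_comm _ _ (F6 f A') d, dst_comm _ _ (F6 f A) d, dst_congr _ _ d _ _ hx,
      dst_congr _ _ d _ _ hx']
  rw [hd] at b4
  have b2' : ∀ d ∈ tri (F6 f) (Sum.inr 0 :: (f w :: bs').map Sum.inl),
      (dst (F6 f) (tn f w bs T) (F6 f A) d : ℤ) = ℓ' d := fun d hd' =>
    (congrFun hd d).symm.trans (b2 d hd')
  have s1 := slc_lab hF h.slc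
    (ℓ' := fun d => (dst (F6 f) (tn f w bs T) (F6 f A) d : ℤ)) a2
  have s2 := slc_lab hF h'.slc
    (ℓ' := fun d => (dst (F6 f) (tn f w bs T) (F6 f A) d : ℤ)) b2'
  obtain ⟨⟨Ds, hD⟩, _⟩ := slc_heads hF h.slc
  obtain ⟨⟨Ds', hD'⟩, _⟩ := slc_heads hF h'.slc
  obtain ⟨_, l1, _⟩ := slc_len hF h.slc
  obtain ⟨_, l2, _⟩ := slc_len hF h'.slc
  have hDs : Ds = Ds' := by
    refine geo_unique _ Ds Ds' (by rw [← hD]; exact a4) (by rw [← hD']; exact b4) ?_
    rw [← hD, ← hD', l1, l2]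
  have hAs : As = As' := by rw [hD, hD', hDs]
  subst hAs
  obtain ⟨t1, t2, _⟩ := slc_unique hF s1 s2
  refine ⟨t1, ?_⟩
  rw [List.map_cons, List.map_cons] at t2
  exact List.map_injective_iff.2 Sum.inl_injective (List.cons.inj t2).2

end UA39
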