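import Pool.Agent.H39.UA.Pl
import Pool.Agent.H39.UA.Clb
import Pool.Agent.H39.UA.Clc

/-!
Module PGE (P186, part A). Assembly: lower bound for the number of pointed planar triangulations.

Proof. The set of pairs `(T, bs)`, `T ∈ LT r (2 m - 1)`, `bs` as in `pl_card` (that is `Hy f m w r T bs`), is mapped to `PS f m w r` by
`(T, bs) ↦ (α, x)` (`clr`, `clb`); the map is injective (`clc`). `LT r (2 m - 1)` is finite (finitely many trees of a given size; or: if it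
is infinite its `ncard` is `0`). `Set.ncard_le_ncard_of_injOn`, `Set.ncard_prod`, `pl_card`.
-/

set_option autoImplicit false

namespace UA39

open Equiv HG39

variable {D : Type} [Fintype D] [DecidableEq D]

theorem ps_ge {f : Perm D} (hf : TF f) {m : ℕ} (hm : 1 ≤ m) (hD : Fintype.card D = 6 * m) (w : D)
    (r : ℕ) : (2 * m - 1).factorial * 3 ^ (2 * m - 1) * (LT r (2 * m - 1)).ncard ≤ (PS f m w r).ncard := by
  have hne : Nonempty (Perm D × D) := ⟨(1, w)⟩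
  obtain ⟨B, hB⟩ : ∃ B : Set (List D), B = {bs : List D | bs.length = 2 * m - 1 ∧
    (tri f (f w :: bs)).Nodup} := ⟨_, rfl⟩
  have hH : ∀ p ∈ LT r (2 * m - 1) ×ˢ B, Hy f m w r p.1 p.2 := by
    rintro ⟨T, bs⟩ ⟨h1, h2⟩
    rw [hB] at h2
    exact ⟨hf, hm, hD, h1, h2.1, h2.2⟩
  have key : ∀ p : Tr × List D, p ∈ LT r (2 * m - 1) ×ˢ B → ∃ q : Perm D × D, q ∈ PS f m w r ∧
      rmv (F6 f) (tn f w p.2 p.1) (Sum.inr 3) = Equiv.sumCongr q.1 1 ∧
      ∃ (ℓ : D ⊕ Fin 6 → ℤ) (lv : List ((D ⊕ Fin 6) × Bool))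
        (pr : List ((D ⊕ Fin 6) × (D ⊕ Fin 6))) (As Bs Cs : List (D ⊕ Fin 6)) (A : D ⊕ Fin 6),
        Ten (F6 f) (tn f w p.2 p.1) ℓ (r + 1) (Sum.inr 0) p.1 ((f w :: p.2).map Sum.inl) lv pr As Bs ∧
        As = Cs ++ [A] ∧ (F6 f * tn f w p.2 p.1).SameCycle (F6 f A) (Sum.inl q.2) := by
    intro p hp
    obtain ⟨α, hα, -, -⟩ := clr (hH p hp)
    obtain ⟨x, hx, h⟩ := clb (hH p hp) hα
    exact ⟨(α, x), hx, hα, h⟩
  choose! g hg1 hg2 hg3 using key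
  have hinj : Set.InjOn g (LT r (2 * m - 1) ×ˢ B) := by
    intro p hp p' hp' hpp
    obtain ⟨ℓ, lv, pr, As, Bs, Cs, A, h1, h2, h3⟩ := hg3 p hp
    obtain ⟨ℓ', lv', pr', As', Bs', Cs', A', h1', h2', h3'⟩ := hg3 p' hp'
    have hα' := hg2 p' hp'
    rw [← hpp] at hα' h3'
    obtain ⟨e1, e2⟩ := clc (hH p hp) (hH p' hp') (hg2 p hp) hα' h1 h2 h3 h1' h2' h3'
    exact Prod.ext e1 e2
  have h1 := Set.ncard_le_ncard_of_injOn g hg1 hinj (Set.toFinite _)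
  rw [Set.ncard_prod, mul_comm] at h1
  refine le_trans (Nat.mul_le_mul_right _ ?_) h1
  rw [hB]
  exact pl_card hf hm hD w

end UA39
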