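import Pool.Agent.H39.UA.Tnum
import Pool.Agent.H39.UA.Pall
import Pool.Agent.H39.UA.Pge

/-!
Module PCARD: the number of pointed planar triangulations with a leaf at distance `r` from the pointed vertex.

Proof. Heights of trees: `T.ok`, `T.wt = 0`, `T.sz = k` imply `0 ≤ T.ht ≤ k + 1` (induction: `ht ≤ sz + 1` for every tree with
weights of subtrees in `{-1,0,1}`; `0 ≤ ht` always), so `LA (2m-1)` is the disjoint union of the `LT r (2m-1)`, `r < 6m + 1`.
Hence `Σ_r N #LT r = N #LA = N (m+1) b0 (m-1) ≥ Σ_r #PS r ≥ Σ_r N #LT r` (`N = (2m-1)! 3^(2m-1)`; `tnum`, `ps_all`, `ps_ge`): all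
terms are equal. For `r ≥ 6m + 1`: `PS f m w r` is empty because distances are smaller than the number `m + 2` of vertices
(`dst` is a distance in a connected graph with `m + 2` vertices; or: every distance occurring is `< 6m`).
-/

set_option autoImplicit false

namespace UA39

open Equiv HG39

variable {D : Type} [Fintype D] [DecidableEq D]

theorem pc_wt : ∀ T : Tr, T.ok → -1 ≤ T.wt ∧ T.wt ≤ 1
  | .u, _ => by simp [Tr.wt]
  | .d, _ => by simp [Tr.wt]
  | .nd a b, h => by
    obtain ⟨-, -, h3⟩ := h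
    show -1 ≤ a.wt + b.wt ∧ a.wt + b.wt ≤ 1
    omega

theorem pc_ht : ∀ T : Tr, T.ok → 0 ≤ T.ht ∧ T.ht ≤ T.sz + 1
  | .u, _ => by simp [Tr.ht, Tr.sz]
  | .d, _ => by simp [Tr.ht, Tr.sz]
  | .nd a b, h => by
    obtain ⟨h1, h2, -⟩ := h
    have ha := pc_ht a h1
    have hb := pc_ht b h2
    have hw := pc_wt a h1
    have e1 : (Tr.nd a b).ht = max a.ht (b.ht - a.wt) := rfl
    have e2 : (Tr.nd a b).sz = a.sz + b.sz + 1 := rfl
    rw [e1, e2]
    push_cast
    constructor
    · exact ha.1.trans (le_max_left _ _)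
    · apply max_le <;> omega

theorem pc_sum {m : ℕ} (hm : 1 ≤ m) (hfin : (LA (2 * m - 1)).Finite) :
    (LA (2 * m - 1)).ncard = ∑ r ∈ Finset.range (6 * m + 1), (LT r (2 * m - 1)).ncard := by
  classical
  rw [Set.ncard_eq_toFinset_card _ hfin]
  rw [Finset.card_eq_sum_card_fiberwise (f := fun T : Tr => T.ht.toNat)
    (t := Finset.range (6 * m + 1))]
  · refine Finset.sum_congr rfl fun r _ => ?_
    have h1 : LT (r : ℤ) (2 * m - 1) =
        ((hfin.toFinset.filter fun T : Tr => T.ht.toNat = r : Finset Tr) : Set Tr) := by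
      ext T
      simp only [LT, LA, Set.mem_setOf_eq, Finset.coe_filter, Set.Finite.mem_toFinset]
      constructor
      · rintro ⟨a, b, c, d⟩
        exact ⟨⟨a, b, d⟩, by omega⟩
      · rintro ⟨⟨a, b, d⟩, c⟩
        have := (pc_ht T a).1
        exact ⟨a, b, by omega, d⟩
    rw [h1, Set.ncard_coe_finset]
  · intro T hT
    have hT' : T ∈ LA (2 * m - 1) := by simpa using hT
    obtain ⟨a, b, c⟩ := hT'
    have := pc_ht T a
    simp only [Finset.coe_range, Set.mem_Iio]
    omega

theorem pc_dst (f α : Perm D) (x w : D) : dst f α x w ≤ Fintype.card D := by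
  classical
  unfold dst
  by_cases h : (gr (f * α) α).Reachable (Quotient.mk (Equiv.Perm.SameCycle.setoid (f * α)) x)
      (Quotient.mk (Equiv.Perm.SameCycle.setoid (f * α)) w)
  · obtain ⟨p, hp, hl⟩ := h.exists_path_of_dist
    have h1 := hp.length_lt
    rw [hl] at h1
    have h2 : Fintype.card (Quotient (Equiv.Perm.SameCycle.setoid (f * α))) ≤ Fintype.card D :=
      Fintype.card_quotient_le _
    omega
  · rw [SimpleGraph.dist_eq_zero_of_not_reachable h]
    exact Nat.zero_le _

theorem ps_card {f : Perm D} (hf : TF f) {m : ℕ} (hm : 1 ≤ m) (hD : Fintype.card D = 6 * m) (w : D)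
    (r : ℕ) : (PS f m w r).ncard ≤
      (2 * m - 1).factorial * 3 ^ (2 * m - 1) * (LT r (2 * m - 1)).ncard := by
  by_cases hr : r < 6 * m + 1
  · obtain ⟨hfin, hnum⟩ := tnum m hm
    have h1 := ps_all hf hm hD w
    rw [← hnum, pc_sum hm hfin] at h1
    by_contra hlt
    rw [not_le] at hlt
    have h2 : ∑ r ∈ Finset.range (6 * m + 1),
        (2 * m - 1).factorial * 3 ^ (2 * m - 1) * (LT r (2 * m - 1)).ncard <
        ∑ r ∈ Finset.range (6 * m + 1), (PS f m w r).ncard :=
      Finset.sum_lt_sum (fun r _ => ps_ge hf hm hD w r) ⟨r, Finset.mem_range.2 hr, hlt⟩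
    rw [← Finset.mul_sum] at h2
    have h3 : ∑ r ∈ Finset.range (6 * m + 1), (PS f m w r).ncard ≤
        (2 * m - 1).factorial * 3 ^ (2 * m - 1) *
          ∑ r ∈ Finset.range (6 * m + 1), (LT r (2 * m - 1)).ncard := by
      exact_mod_cast h1
    omega
  · have h1 : PS f m w r = ∅ := by
      rw [Set.eq_empty_iff_forall_notMem]
      rintro ⟨α, x⟩ ⟨-, -, -, -, h5⟩
      have := pc_dst f α x w
      simp only at h5
      omega
    rw [h1, Set.ncard_empty]
    exact Nat.zero_le _

end UA39
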