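import Pool.Agent.H39.HG.TLim
import Pool.Agent.H39.UN.PlC
import Pool.Agent.H39.UN.LawA

/-!
P186 (MP_bcc40c_pr, Q2), part A: pointed planar triangulations with a marked leaf and trees of weight `0`.

`LT r k` : the trees `T` (see HG/Defs) with `T.ok`, weight `0`, height `r` and `k` inner nodes.
`PS f m w r` : planar triangulations (`m + 2` vertices, `2 m` triangles) with a leaf triangle at `w`, and a
(representative of a) vertex `x`, not the tip of the leaf, at distance `r` from the base vertex of `w`.
Target (`ps_card`): `#PS f m w r = (2 m - 1)! 3^(2 m - 1) #LT r (2 m - 1)`, in fact only `≤` is needed.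
-/

set_option autoImplicit false

namespace UA39

open Equiv HG39

/-- trees of weight zero, height `r`, with `k` inner nodes -/
def LT (r : ℤ) (k : ℕ) : Set Tr := {T | T.ok ∧ T.wt = 0 ∧ T.ht = r ∧ T.sz = k}

/-- trees of weight zero with `k` inner nodes -/
def LA (k : ℕ) : Set Tr := {T | T.ok ∧ T.wt = 0 ∧ T.sz = k}

variable {D : Type} [Fintype D] [DecidableEq D]

/-- planar triangulations with a leaf at `w` and a vertex at distance `r` from its base vertex -/
def PS (f : Perm D) (m : ℕ) (w : D) (r : ℕ) : Set (Perm D × D) :=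
  {p | p.1 ∈ TS f (m + 2) ∧ Leaf f p.1 w ∧ rep f p.1 p.2 = p.2 ∧ p.2 ≠ f (f w) ∧
    dst f p.1 p.2 w = r}

end UA39
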