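import Pool.Agent.H39.UA.Defs
import Pool.Agent.H39.HG.YDef
import Pool.Agent.H39.HG.TenPT
import Pool.Agent.H39.HG.TenCyc
import Pool.Agent.H39.HG.TenVal

/-!
Module BX (P186, part A). Closing a tree `T` (hung on the base `w` of a leaf triangle) by means of the tentacles of HG: two more
triangles `e = 0` (darts `0 1 2`) and `c = 3` (darts `3 4 5`) are added, glued to a sphere with two leaves (`0 ~ 3`, `1 ~ 2`, `4 ~ 5`).
A tentacle (`tenS`) with base `e` and tree `T` is grown, its first triangle is the one of `w` (root `f w`).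

Proofs. `cyc_sum`: cycles of a sum (bijection of the quotients). `bx_all`: a duplicate free list of length `3 * 2m = #D`.
`bx_pt`: legs of `A6` are exactly the `inl d`, i.e. `tri (F6 f) (map inl (f w :: bs)) = map inl (tri f (f w :: bs))`; connected: the six
darts `inr i` are connected by `h6` and `b6`. `bx_cyc`: `F6 f * A6 = sumCongr f (h6 * b6)`, `cyc f = 2 m` (`3 cyc f = 6 m`: all cycles of
`f` have length three; e.g. `tri`, or HG/AdCount, UN/Law), `cyc (h6 * b6) = 3` (cycles `(0 4 3 1)`, `(2)`, `(5)`).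
-/

set_option autoImplicit false

namespace UA39

open Equiv HG39

/-- the faces of the two additional triangles -/
def h6 : Perm (Fin 6) where
  toFun := ![1, 2, 0, 4, 5, 3]
  invFun := ![2, 0, 1, 5, 3, 4]
  left_inv := by decide
  right_inv := by decide

/-- the sphere with two leaves: `0 ~ 3`, `1 ~ 2`, `4 ~ 5` -/
def b6 : Perm (Fin 6) where
  toFun := ![3, 2, 1, 0, 5, 4]
  invFun := ![3, 2, 1, 0, 5, 4]
  left_inv := by decide
  right_inv := by decide

section sum

variable {D E : Type} [Fintype D] [DecidableEq D] [Fintype E] [DecidableEq E]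

omit [Fintype D] [DecidableEq D] [Fintype E] [DecidableEq E] in
private theorem sum_zpow (π : Perm D) (ρ : Perm E) (i : ℤ) :
    (Equiv.sumCongr π ρ : Perm (D ⊕ E)) ^ i = Equiv.sumCongr (π ^ i) (ρ ^ i) := by
  have h := map_zpow (Equiv.Perm.sumCongrHom D E) (π, ρ) i
  exact h.symm

omit [Fintype D] [DecidableEq D] [Fintype E] [DecidableEq E] in
private theorem sum_sc (π : Perm D) (ρ : Perm E) (x y : D ⊕ E) :
    Perm.SameCycle (Equiv.sumCongr π ρ : Perm (D ⊕ E)) x y ↔
      (∃ a b, x = Sum.inl a ∧ y = Sum.inl b ∧ π.SameCycle a b) ∨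
      (∃ a b, x = Sum.inr a ∧ y = Sum.inr b ∧ ρ.SameCycle a b) := by
  constructor
  · rintro ⟨i, hi⟩
    rw [sum_zpow] at hi
    rcases x with a | a
    · exact Or.inl ⟨a, (π ^ i) a, rfl, hi.symm, i, rfl⟩
    · exact Or.inr ⟨a, (ρ ^ i) a, rfl, hi.symm, i, rfl⟩
  · rintro (⟨a, b, rfl, rfl, i, hi⟩ | ⟨a, b, rfl, rfl, i, hi⟩)
    · refine ⟨i, ?_⟩
      rw [sum_zpow, ← hi]
      rfl
    · refine ⟨i, ?_⟩
      rw [sum_zpow, ← hi]
      rfl

end sum

theorem cyc_sum {D E : Type} [Fintype D] [DecidableEq D] [Fintype E] [DecidableEq E] (π : Perm D)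
    (ρ : Perm E) : cyc (Equiv.sumCongr π ρ : Perm (D ⊕ E)) = cyc π + cyc ρ := by
  unfold cyc
  rw [← Nat.card_sum]
  refine Nat.card_congr
    { toFun := Quotient.lift (s := Perm.SameCycle.setoid (Equiv.sumCongr π ρ : Perm (D ⊕ E)))
        (fun x : D ⊕ E => Sum.map (Quotient.mk (Perm.SameCycle.setoid π))
          (Quotient.mk (Perm.SameCycle.setoid ρ)) x) ?_
      invFun := Sum.elim
        (Quotient.lift (s := Perm.SameCycle.setoid π) (fun x =>
          Quotient.mk (Perm.SameCycle.setoid (Equiv.sumCongr π ρ : Perm (D ⊕ E))) (Sum.inl x)) ?_)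
        (Quotient.lift (s := Perm.SameCycle.setoid ρ) (fun x =>
          Quotient.mk (Perm.SameCycle.setoid (Equiv.sumCongr π ρ : Perm (D ⊕ E))) (Sum.inr x)) ?_)
      left_inv := ?_
      right_inv := ?_ }
  · intro x y h
    have h' : Perm.SameCycle (Equiv.sumCongr π ρ : Perm (D ⊕ E)) x y := h
    rw [sum_sc] at h'
    rcases h' with ⟨a, b, rfl, rfl, hab⟩ | ⟨a, b, rfl, rfl, hab⟩
    · exact congrArg Sum.inl (Quotient.sound hab)
    · exact congrArg Sum.inr (Quotient.sound hab)
  · intro a b h
    exact Quotient.sound ((sum_sc π ρ _ _).2 (Or.inl ⟨a, b, rfl, rfl, h⟩))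
  · intro a b h
    exact Quotient.sound ((sum_sc π ρ _ _).2 (Or.inr ⟨a, b, rfl, rfl, h⟩))
  · intro c
    induction c using Quotient.ind with
    | _ x =>
      rcases x with x | x <;> rfl
  · intro c
    rcases c with c | c
    · induction c using Quotient.ind
      rfl
    · induction c using Quotient.ind
      rfl

variable {D : Type} [Fintype D] [DecidableEq D]

/-- the faces with two more triangles -/
def F6 (f : Perm D) : Perm (D ⊕ Fin 6) := Equiv.sumCongr f h6

/-- only the two additional triangles are glued -/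
def A6 : Perm (D ⊕ Fin 6) := Equiv.sumCongr 1 b6

/-- the tentacle with base `inr 0`, tree `T`, roots `f w :: bs` -/
def tn (f : Perm D) (w : D) (bs : List D) (T : Tr) : Perm (D ⊕ Fin 6) :=
  tenS (F6 f) A6 (Sum.inr 0) ((f w :: bs).map Sum.inl) T

/-- admissible data: a tree of weight `0`, height `r`, and the roots of the `2 m - 1` other triangles -/
structure Hy (f : Perm D) (m : ℕ) (w : D) (r : ℕ) (T : Tr) (bs : List D) : Prop where
  tf : TF f
  hm : 1 ≤ m
  hD : Fintype.card D = 6 * m
  ok : T ∈ LT r (2 * m - 1)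
  len : bs.length = 2 * m - 1
  ndp : (tri f (f w :: bs)).Nodup

variable {f : Perm D} {m : ℕ} {w : D} {r : ℕ} {T : Tr} {bs : List D}

theorem bx_all (H : Hy f m w r T bs) (d : D) : d ∈ tri f (f w :: bs) := by
  have h1 : (tri f (f w :: bs)).toFinset.card = Fintype.card D := by
    rw [List.toFinset_card_of_nodup H.ndp, tri_len, List.length_cons, H.len, H.hD]
    have := H.hm
    omega
  have h2 : (tri f (f w :: bs)).toFinset = Finset.univ := (Finset.card_eq_iff_eq_univ _).1 h1
  rw [← List.mem_toFinset, h2]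
  exact Finset.mem_univ d

omit [Fintype D] [DecidableEq D] in
private theorem tri_map (f : Perm D) (l : List D) :
    tri (F6 f) (l.map Sum.inl) = (tri f l).map Sum.inl := by
  induction l with
  | nil => rfl
  | cons b l ih =>
    have e1 : tri f (b :: l) = b :: f b :: f (f b) :: tri f l := rfl
    have e2 : tri (F6 f) ((b :: l).map Sum.inl) =
        Sum.inl b :: Sum.inl (f b) :: Sum.inl (f (f b)) :: tri (F6 f) (l.map Sum.inl) := rfl
    rw [e1, e2, ih]
    rfl

omit [Fintype D] [DecidableEq D] in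
private theorem F6_inl (f : Perm D) (d : D) : F6 f (Sum.inl d) = Sum.inl (f d) := rfl

omit [Fintype D] [DecidableEq D] in
private theorem F6_inr (f : Perm D) (i : Fin 6) : F6 f (Sum.inr i) = Sum.inr (h6 i) := rfl

omit [Fintype D] [DecidableEq D] in
private theorem A6_inl (d : D) : (A6 : Perm (D ⊕ Fin 6)) (Sum.inl d) = Sum.inl d := rfl

omit [Fintype D] [DecidableEq D] in
private theorem A6_inr (i : Fin 6) : (A6 : Perm (D ⊕ Fin 6)) (Sum.inr i) = Sum.inr (b6 i) := rfl

theorem bx_pt (H : Hy f m w r T bs) : TF (F6 f) ∧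
    PT (F6 f) (A6 : Perm (D ⊕ Fin 6)) ((f w :: bs).map Sum.inl) ∧
    Leaf (F6 f) (A6 : Perm (D ⊕ Fin 6)) (Sum.inr 0) := by
  have k1 : ∀ i, h6 (h6 (h6 i)) = i := by decide
  have k2 : ∀ i, h6 i ≠ i := by decide
  have k3 : ∀ i, b6 (b6 i) = i := by decide
  have k4 : ∀ i, b6 i ≠ i := by decide
  refine ⟨⟨?_, ?_⟩, ⟨?_, ?_, ?_, ?_⟩, ?_⟩
  · rintro (d | i)
    · rw [F6_inl, F6_inl, F6_inl, H.tf.three]
    · rw [F6_inr, F6_inr, F6_inr, k1]
  · rintro (d | i)
    · rw [F6_inl]
      intro h
      exact H.tf.nf d (Sum.inl_injective h)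
    · rw [F6_inr]
      intro h
      exact k2 i (Sum.inr_injective h)
  · rintro (d | i)
    · rw [A6_inl, A6_inl]
    · rw [A6_inr, A6_inr, k3]
  · rintro (d | i)
    · rw [A6_inl, tri_map]
      exact ⟨fun _ => List.mem_map.2 ⟨d, bx_all H d, rfl⟩, fun _ => rfl⟩
    · rw [A6_inr, tri_map]
      constructor
      · intro h
        exact absurd (Sum.inr_injective h) (k4 i)
      · intro h
        obtain ⟨x, -, hx⟩ := List.mem_map.1 h
        cases hx
  · rw [tri_map]
    exact H.ndp.map Sum.inl_injective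
  · intro P hex hPf hPa
    have key : ∀ Q : Fin 6 → Prop, (∃ i, Q i) → (∀ i, Q i → Q (h6 i)) → (∀ i, Q i → Q (b6 i)) →
        ∀ i, Q i := by
      intro Q hQ h1 h2
      have s0 : Q 0 → Q 1 := fun h => h1 0 h
      have s1 : Q 1 → Q 2 := fun h => h1 1 h
      have s2 : Q 2 → Q 0 := fun h => h1 2 h
      have s3 : Q 3 → Q 4 := fun h => h1 3 h
      have s4 : Q 4 → Q 5 := fun h => h1 4 h
      have s5 : Q 5 → Q 3 := fun h => h1 5 h
      have s6 : Q 0 → Q 3 := fun h => h2 0 h
      have s7 : Q 3 → Q 0 := fun h => h2 3 h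
      obtain ⟨i, hi⟩ := hQ
      have h0 : Q 0 := by
        fin_cases i
        · exact hi
        · exact s2 (s1 hi)
        · exact s2 hi
        · exact s7 hi
        · exact s7 (s5 (s4 hi))
        · exact s7 (s5 hi)
      intro j
      fin_cases j
      · exact h0
      · exact s0 h0
      · exact s1 (s0 h0)
      · exact s6 h0
      · exact s3 (s6 h0)
      · exact s4 (s3 (s6 h0))
    have h1 := key (fun i => P (Sum.inr i)) ?_ (fun i hi => hPf _ hi) (fun i hi => hPa _ hi)
    · rintro (d | i) hd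
      · exact absurd rfl hd
      · exact h1 i
    · obtain ⟨x, hx, hP⟩ := hex
      rcases x with d | i
      · exact absurd rfl hx
      · exact ⟨i, hP⟩
  · show (A6 : Perm (D ⊕ Fin 6)) (F6 f (Sum.inr 0)) = F6 f (F6 f (Sum.inr 0))
    rw [F6_inr, F6_inr, A6_inr]
    congr 1

private lemma sc_iff3 {f : Perm D} (hf : TF f) (x y : D) :
    f.SameCycle x y ↔ (y = x ∨ y = f x ∨ y = f (f x)) := by
  constructor
  · intro h
    refine zs_ind f (fun x y => y = x ∨ y = f x ∨ y = f (f x)) (fun x => Or.inl rfl) ?_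
      (fun x => Or.inr (Or.inl rfl)) h
    intro x y z h1 h2
    rcases h1 with rfl | rfl | rfl <;> rcases h2 with rfl | rfl | rfl
    · exact Or.inl rfl
    · exact Or.inr (Or.inl rfl)
    · exact Or.inr (Or.inr rfl)
    · exact Or.inr (Or.inl rfl)
    · exact Or.inr (Or.inr rfl)
    · exact Or.inl (hf.three x)
    · exact Or.inr (Or.inr rfl)
    · exact Or.inl (hf.three x)
    · refine Or.inr (Or.inl ?_)
      rw [hf.three]
  · rintro (rfl | rfl | rfl)
    · exact Perm.SameCycle.refl f _
    · exact ⟨1, by rw [zpow_one]⟩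
    · exact ⟨2, rfl⟩

private lemma three_cyc3 {f : Perm D} (hf : TF f) : Fintype.card D = 3 * cyc f := by
  classical
  have hfin : Fintype (Quotient (Perm.SameCycle.setoid f)) := Fintype.ofFinite _
  have h1 := Finset.card_eq_sum_card_fiberwise (s := (Finset.univ : Finset D))
    (t := (Finset.univ : Finset (Quotient (Perm.SameCycle.setoid f))))
    (f := fun x => Quotient.mk (Perm.SameCycle.setoid f) x) (fun x _ => Finset.mem_univ _)
  rw [← Finset.card_univ, h1]
  have h2 : ∀ c ∈ (Finset.univ : Finset (Quotient (Perm.SameCycle.setoid f))),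
      (Finset.univ.filter fun x => Quotient.mk (Perm.SameCycle.setoid f) x = c).card = 3 := by
    intro c _
    obtain ⟨x, rfl⟩ := Quotient.exists_rep c
    have h3 : (Finset.univ.filter fun y => Quotient.mk (Perm.SameCycle.setoid f) y =
        Quotient.mk (Perm.SameCycle.setoid f) x) = {x, f x, f (f x)} := by
      ext y
      simp only [Finset.mem_filter, Finset.mem_univ, true_and, Finset.mem_insert,
        Finset.mem_singleton]
      rw [← sc_iff3 hf x y]
      constructor
      · intro h
        have h4 : f.SameCycle y x := Quotient.exact h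
        exact h4.symm
      · intro h
        exact Quotient.sound h.symm
    rw [h3]
    have e1 : x ≠ f x := (hf.nf x).symm
    have e2 : x ≠ f (f x) := by
      intro h
      have h5 := hf.three x
      rw [← h] at h5
      exact hf.nf x h5
    have e3 : f x ≠ f (f x) := fun h => e1 (f.injective h)
    rw [Finset.card_insert_of_notMem (by simp [e1, e2]),
      Finset.card_insert_of_notMem (by simp [e3]), Finset.card_singleton]
  rw [Finset.sum_congr rfl h2, Finset.sum_const, smul_eq_mul, mul_comm, Finset.card_univ]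
  unfold cyc
  rw [Nat.card_eq_fintype_card]

/-- the three cycles of `h6 * b6` -/
private def col6 : Fin 6 → Fin 3 := ![0, 0, 1, 0, 0, 2]

private lemma cyc6 : cyc (h6 * b6) = 3 := by
  have k1 : ∀ i, col6 ((h6 * b6) i) = col6 i := by decide
  have hsc : ∀ i j, (h6 * b6).SameCycle i j ↔ col6 i = col6 j := by
    intro i j
    constructor
    · intro h
      exact zs_ind (h6 * b6) (fun x y => col6 x = col6 y) (fun x => rfl)
        (fun x y z h1 h2 => h1.trans h2) (fun x => (k1 x).symm) h
    · have k2 : ∀ i j, col6 i = col6 j → ∃ n ∈ Finset.range 4, ((h6 * b6) ^ n) i = j := by decide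
      intro h
      obtain ⟨n, -, hn⟩ := k2 i j h
      exact ⟨n, by rw [zpow_natCast, hn]⟩
  have e : Quotient (Perm.SameCycle.setoid (h6 * b6)) ≃ Fin 3 := by
    refine Equiv.ofBijective (Quotient.lift (s := Perm.SameCycle.setoid (h6 * b6)) col6 ?_) ⟨?_, ?_⟩
    · intro a b h
      exact (hsc a b).1 h
    · intro a b
      induction a using Quotient.ind with
      | _ a =>
        induction b using Quotient.ind with
        | _ b =>
          intro h
          exact Quotient.sound ((hsc a b).2 h)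
    · have k3 : ∀ c : Fin 3, ∃ i, col6 i = c := by decide
      intro c
      obtain ⟨i, hi⟩ := k3 c
      exact ⟨Quotient.mk _ i, hi⟩
  unfold cyc
  rw [Nat.card_congr e, Nat.card_eq_fintype_card, Fintype.card_fin]

theorem bx_cyc (H : Hy f m w r T bs) : cyc (F6 f * (A6 : Perm (D ⊕ Fin 6))) = 2 * m + 3 := by
  have h1 : F6 f * (A6 : Perm (D ⊕ Fin 6)) = Equiv.sumCongr f (h6 * b6) := by
    ext x
    rcases x with d | i <;> rfl
  have h2 := three_cyc3 H.tf
  rw [H.hD] at h2
  rw [h1, cyc_sum, cyc6]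
  omega

/-- admissibility for the tentacle -/
theorem bx_adm (H : Hy f m w r T bs) : Adm (r + 1) (m + 1) T ∧
    ((f w :: bs).map (Sum.inl : D → D ⊕ Fin 6)).length = T.sz + 1 := by
  obtain ⟨h1, h2, h3, h4⟩ := H.ok
  have hm := H.hm
  refine ⟨⟨h1, h2, ?_, ?_⟩, ?_⟩
  · rw [h3]
    push_cast
    ring
  · rw [h4]
    omega
  · rw [List.length_map, List.length_cons, H.len, h4]

end UA39
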