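import Pool.Agent.H39.UA.Bx
import Pool.Agent.H39.HG.TenLoop
import Pool.Agent.H39.HG.UPT
import Pool.Agent.H39.HG.UCyc

/-!
Module CLA (P186, part A). The tentacle map `tn` on `D ⊕ Fin 6`, and the triangulation `α` of `D` obtained from it by removing the unit
(leaf triangle `c = inr 3`, collar `e = inr 0`).

Proofs. `cla`: `ten_PT`, `ten_cyc` (`K = m + 1`, with `bx_pt`, `bx_adm`, `bx_cyc`), `ten_val`: `tn = A6` on the darts `inr 3, inr 4, inr 5`
and `inr 0` (they are not in `f e :: f f e :: tri ..`), the first pair of `grow` is `(f e, inl (f w))`, so `tn (inr 1) = inl (f w)`;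
`tn (inr 2) = inl (f (f w))`: by `ten_ten` there is a `Ten`, `slc_heads`: `As = f (α (f e)) :: _`, `Bs = f f e :: _`, and `Ten.cl`.
`clr`: `c = inr 3` is a leaf (`tn (inr 4) = inr 5`), `tn c = inr 0`. `unit_PT` (with `bs = []`): the legs of `rmv` are exactly the
`inr i`; so `rmv` maps `range inl` to itself (an involution with legs `inr i`), `rmv = sumCongr α 1`. `PT f α []` from `PT.con` (with
`P` transported), `cyc`: `unit_cyc`: `cyc (F6 f * rmv) = m + 4 = cyc (f * α) + cyc h6` (`cyc_sum`, `cyc h6 = 2`), so `cyc (f * α) = m + 2`.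
`Leaf f α w`: `rmv_xy`: `rmv (inl (f w)) = inl (f (f w))`.
-/

set_option autoImplicit false

namespace UA39

open Equiv HG39

theorem cyc_h6 : cyc h6 = 2 := by
  have h1 : ∀ d : Fin 6, (if (h6 d : ℕ) < 3 then (0 : Fin 2) else 1) =
      if (d : ℕ) < 3 then 0 else 1 := by decide
  have hz : ∀ (i : ℤ) (d : Fin 6), (if (((h6 ^ i) d : Fin 6) : ℕ) < 3 then (0 : Fin 2) else 1) =
      if (d : ℕ) < 3 then 0 else 1 := by
    intro i
    induction i using Int.induction_on with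
    | zero => intro d; rfl
    | succ i ih =>
      intro d
      rw [add_comm, zpow_add, zpow_one, Equiv.Perm.mul_apply, h1, ih]
    | pred i ih =>
      intro d
      have e : 1 + (-(i : ℤ) - 1) = -(i : ℤ) := by ring
      rw [← ih d, ← h1 ((h6 ^ (-(i : ℤ) - 1)) d), ← Equiv.Perm.mul_apply, ← zpow_one_add, e]
  let φ : Quotient (Equiv.Perm.SameCycle.setoid h6) → Fin 2 :=
    Quotient.lift (fun d : Fin 6 => if (d : ℕ) < 3 then (0 : Fin 2) else 1) (by
      rintro a b ⟨i, hi⟩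
      rw [← hi, hz])
  have hφ : Function.Bijective φ := by
    constructor
    · intro a b
      induction a using Quotient.inductionOn with
      | _ a =>
      induction b using Quotient.inductionOn with
      | _ b =>
      intro h
      apply Quotient.sound
      show h6.SameCycle a b
      have key : ∀ a b : Fin 6, (if (a : ℕ) < 3 then (0 : Fin 2) else 1) =
          (if (b : ℕ) < 3 then 0 else 1) →
          (h6 ^ 0) a = b ∨ (h6 ^ 1) a = b ∨ (h6 ^ 2) a = b := by decide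
      rcases key a b h with h | h | h
      · exact ⟨0, h⟩
      · exact ⟨1, h⟩
      · exact ⟨2, h⟩
    · intro c
      fin_cases c
      · exact ⟨Quotient.mk _ 0, rfl⟩
      · exact ⟨Quotient.mk _ 3, rfl⟩
  unfold cyc
  rw [Nat.card_eq_of_bijective φ hφ]
  simp

variable {D : Type} [Fintype D] [DecidableEq D]
variable {f : Perm D} {m : ℕ} {w : D} {r : ℕ} {T : Tr} {bs : List D}

omit [Fintype D] [DecidableEq D] in
theorem F6_inl (d : D) : F6 f (Sum.inl d) = Sum.inl (f d) := rfl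

omit [Fintype D] [DecidableEq D] in
theorem F6_inr (i : Fin 6) : F6 f (Sum.inr i) = Sum.inr (h6 i) := rfl

omit [Fintype D] [DecidableEq D] in
theorem A6_inr (i : Fin 6) : (A6 : Perm (D ⊕ Fin 6)) (Sum.inr i) = Sum.inr (b6 i) := rfl

omit [Fintype D] [DecidableEq D] in
theorem tri_inl (i : Fin 6) (l : List D) : (Sum.inr i : D ⊕ Fin 6) ∉ tri (F6 f) (l.map Sum.inl) := by
  intro h
  rw [tri, List.mem_flatMap] at h
  obtain ⟨b, hb, h1⟩ := h
  obtain ⟨d, _, rfl⟩ := List.mem_map.1 hb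
  simp [F6_inl] at h1

theorem cla (H : Hy f m w r T bs) : PT (F6 f) (tn f w bs T) [] ∧
    cyc (F6 f * tn f w bs T) = m + 3 ∧ tn f w bs T (Sum.inr 0) = Sum.inr 3 ∧
    tn f w bs T (Sum.inr 3) = Sum.inr 0 ∧ tn f w bs T (Sum.inr 4) = Sum.inr 5 ∧
    tn f w bs T (Sum.inr 1) = Sum.inl (f w) ∧ tn f w bs T (Sum.inr 2) = Sum.inl (f (f w)) := by
  obtain ⟨hF, hP, hL⟩ := bx_pt H
  obtain ⟨hA, hlen⟩ := bx_adm H
  have hr : 1 ≤ r + 1 := by omega
  have h1 : PT (F6 f) (tn f w bs T) [] := ten_PT hF hP hL hr hA hlen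
  have h2 := ten_cyc hF hP hL hr hA hlen
  obtain ⟨v1, v2, v3, v4⟩ := ten_val hF hP hL hr hA hlen
  rw [bx_cyc H] at h2
  have hv : ∀ i : Fin 6, i ≠ 1 → i ≠ 2 → tn f w bs T (Sum.inr i) = Sum.inr (b6 i) := by
    intro i hi1 hi2
    rw [← A6_inr]
    refine v2 _ ?_
    intro h
    rcases List.mem_cons.1 h with h | h
    · exact hi1 (Sum.inr.inj h)
    · rcases List.mem_cons.1 h with h | h
      · exact hi2 (Sum.inr.inj h)
      · exact tri_inl _ _ h
  have h5 : tn f w bs T (Sum.inr 1) = Sum.inl (f w) := by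
    have h6 := v1 (F6 f (Sum.inr 0), Sum.inl (f w)) (by
      unfold tenPairs
      refine List.mem_append_left _ (List.mem_append_left _ ?_)
      show _ ∈ (grow (F6 f) (.nd .d T) (F6 f (Sum.inr 0)) (Sum.inl (f w) :: bs.map Sum.inl)).1
      exact List.mem_cons_self)
    exact h6.1
  have h7 : tn f w bs T (Sum.inr 2) = Sum.inl (f (f w)) := by
    obtain ⟨ℓ, lv, pr, As, Bs, ht⟩ := ten_ten hF hP hL hr hA hlen
    obtain ⟨⟨As', hAs⟩, ⟨Bs', hBs⟩⟩ := slc_heads hF ht.slc
    have h8 := (ht.cl (F6 f (tn f w bs T (F6 f (Sum.inr 0))), F6 f (F6 f (Sum.inr 0))) (by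
      rw [hAs, hBs]
      simp [tn])).2
    have h9 : tn f w bs T (Sum.inr 2) = F6 f (tn f w bs T (Sum.inr 1)) := h8
    rw [h9, h5, F6_inl]
  refine ⟨h1, ?_, hv 0 (by decide) (by decide), hv 3 (by decide) (by decide),
    hv 4 (by decide) (by decide), h5, h7⟩
  unfold tn
  omega

theorem clr (H : Hy f m w r T bs) : ∃ α : Perm D,
    rmv (F6 f) (tn f w bs T) (Sum.inr 3) = Equiv.sumCongr α 1 ∧ α ∈ TS f (m + 2) ∧ Leaf f α w := by
  obtain ⟨hF, hP, hL⟩ := bx_pt H
  obtain ⟨c1, c2, c3, c4, c5, c6, c7⟩ := cla H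
  have hm := H.hm
  have hLe : Leaf (F6 f) (tn f w bs T) (Sum.inr 3) := c5
  have hN : 3 * ([] : List (D ⊕ Fin 6)).length + 6 < Fintype.card (D ⊕ Fin 6) := by
    rw [Fintype.card_sum, H.hD, Fintype.card_fin, List.length_nil]
    omega
  have hPT := unit_PT hF c1 hLe hN
  have hcy := unit_cyc hF c1 hLe hN
  have hxy := (rmv_xy hF c1 hLe hN).1
  rw [c4] at hPT hxy
  have hxy' : rmv (F6 f) (tn f w bs T) (Sum.inr 3) (Sum.inl (f w)) = Sum.inl (f (f w)) := by
    have e1 : F6 f (Sum.inr 0) = (Sum.inr 1 : D ⊕ Fin 6) := rfl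
    have e2 : F6 f (Sum.inr 1) = (Sum.inr 2 : D ⊕ Fin 6) := rfl
    rw [e1, e2, c6, c7] at hxy
    exact hxy
  set ρ := rmv (F6 f) (tn f w bs T) (Sum.inr 3) with hρ
  have htri : tri (F6 f) [(Sum.inr 3 : D ⊕ Fin 6), Sum.inr 0] =
      [Sum.inr 3, Sum.inr 4, Sum.inr 5, Sum.inr 0, Sum.inr 1, Sum.inr 2] := rfl
  have hfix : ∀ i : Fin 6, ρ (Sum.inr i) = Sum.inr i := by
    intro i
    refine (hPT.leg _).2 ?_
    rw [htri]
    fin_cases i <;> simp
  have hnf : ∀ d : D, ρ (Sum.inl d) ≠ Sum.inl d := by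
    intro d hd
    have := (hPT.leg _).1 hd
    rw [htri] at this
    simp at this
  have hmaps : Set.MapsTo ρ (Set.range (Sum.inl : D → D ⊕ Fin 6)) (Set.range Sum.inl) := by
    rintro _ ⟨d, rfl⟩
    rcases h : ρ (Sum.inl d) with e | i
    · exact ⟨e, rfl⟩
    · exfalso
      have h1 : ρ (Sum.inl d) = ρ (Sum.inr i) := by rw [h, hfix]
      exact absurd (ρ.injective h1) (by simp)
  obtain ⟨⟨α, β⟩, hαβ⟩ := Equiv.Perm.mem_sumCongrHom_range_of_perm_mapsTo_inl hmaps
  have hαβ' : (Equiv.sumCongr α β : Perm (D ⊕ Fin 6)) = ρ := hαβ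
  have hβ : β = 1 := by
    ext i
    have h1 := hfix i
    rw [← hαβ'] at h1
    have h2 : (Sum.inr (β i) : D ⊕ Fin 6) = Sum.inr i := h1
    rw [Sum.inr.inj h2]
    rfl
  subst hβ
  have hα : ∀ d, ρ (Sum.inl d) = Sum.inl (α d) := fun d => by
    rw [← hαβ']
    rfl
  have hα0 : ∀ d, α d ≠ d := fun d h => hnf d (by rw [hα, h])
  refine ⟨α, hαβ'.symm, ⟨?_, ?_⟩, ?_⟩
  · refine ⟨fun d => ?_, fun d => ?_, by simp [tri], ?_⟩
    · have h1 := hPT.inv (Sum.inl d)
      rw [hα, hα] at h1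
      exact Sum.inl.inj h1
    · simp only [tri, List.flatMap_nil, List.not_mem_nil, iff_false]
      exact hα0 d
    · intro P ⟨d0, _, hd0⟩ hPf hPα d _
      have h1 := hPT.con (Sum.elim P fun _ => True) ⟨Sum.inl d0, hnf d0, hd0⟩ (by
        rintro (e | i) he
        · exact hPf e he
        · trivial) (by
        rintro (e | i) he
        · rw [hα]
          exact hPα e he
        · rw [hfix]
          trivial) (Sum.inl d) (hnf d)
      exact h1
  · rw [c2, ← hαβ'] at hcy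
    have h1 : F6 f * (Equiv.sumCongr α 1 : Perm (D ⊕ Fin 6)) = Equiv.sumCongr (f * α) h6 := by
      refine Equiv.ext fun d => ?_
      rcases d with d | i
      · rfl
      · rfl
    rw [h1, cyc_sum, cyc_h6] at hcy
    omega
  · have h1 := hα (f w)
    rw [hxy'] at h1
    exact (Sum.inl.inj h1).symm

end UA39
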