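import Pool.Agent.H39.UA.Defs

/-!
Module PL (P186, part A). Number of lists of roots. MATHLIB ONLY (plus `tri`, HG/GrPerm).

Proof. The triangles (cycles of `f`) different from the one of `w`: `2 m - 1` of them (`#D = 6 m`). Choose one dart `b i` in each
(`i : Fin (2 m - 1)`). The map `Perm (Fin (2 m - 1)) × (Fin (2 m - 1) → Fin 3) → lists`,
`(σ, t) ↦ List.ofFn (fun i => (f ^ (t i : ℕ)) (b (σ i)))` is injective (the triangle of the `i`-th entry gives `σ i`, the entry itself
gives `t i`) and has values in the set (the triangles are different and different from the one of `w`). The set is finite (lists of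
given length). Cardinality: `(2 m - 1)! * 3 ^ (2 m - 1)`.
-/

set_option autoImplicit false

namespace UA39

open Equiv HG39

variable {D : Type} [Fintype D] [DecidableEq D]

private theorem pl_three {f : Perm D} (hf : TF f) (b : D) : [b, f b, f (f b)].Nodup := by
  have h1 := hf.nf b
  have h2 := hf.nf (f b)
  have h3 : f (f b) ≠ b := by
    intro h
    have h4 := hf.three b
    rw [h] at h4
    exact h1 h4
  simp only [List.nodup_cons, List.mem_cons, List.not_mem_nil, or_false, not_or, List.nodup_nil, and_true,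
    not_false_eq_true]
  exact ⟨⟨h1.symm, h3.symm⟩, h2.symm⟩

private theorem pl_tri {f : Perm D} {n : ℕ} (g : Fin n → D) :
    tri f (List.ofFn g) = (List.finRange n).flatMap fun i => [g i, f (g i), f (f (g i))] := by
  unfold tri
  rw [List.ofFn_eq_map, List.flatMap_map]

private theorem pl_rot {f : Perm D} (hf : TF f) (b : D) (s : Fin 3) :
    ([(f ^ (s : ℕ)) b, f ((f ^ (s : ℕ)) b), f (f ((f ^ (s : ℕ)) b))]).Perm [b, f b, f (f b)] := by
  have h3 := hf.three b
  fin_cases s
  · exact List.Perm.refl _
  · show ([(f ^ 1) b, f ((f ^ 1) b), f (f ((f ^ 1) b))]).Perm [b, f b, f (f b)]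
    rw [pow_one, h3]
    have h4 : ([f b, f (f b)] ++ [b]).Perm ([b] ++ [f b, f (f b)]) := List.perm_append_comm
    exact h4
  · show ([(f ^ 2) b, f ((f ^ 2) b), f (f ((f ^ 2) b))]).Perm [b, f b, f (f b)]
    have h5 : (f ^ 2) b = f (f b) := rfl
    rw [h5, h3]
    have h4 : ([f (f b)] ++ [b, f b]).Perm ([b, f b] ++ [f (f b)]) := List.perm_append_comm
    exact h4

private theorem pl_mem {f : Perm D} (b : D) (s : Fin 3) : (f ^ (s : ℕ)) b ∈ [b, f b, f (f b)] := by
  fin_cases s
  · show (f ^ 0) b ∈ [b, f b, f (f b)]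
    simp
  · show (f ^ 1) b ∈ [b, f b, f (f b)]
    simp
  · show (f ^ 2) b ∈ [b, f b, f (f b)]
    have h5 : (f ^ 2) b = f (f b) := rfl
    rw [h5]
    simp

private theorem pl_inj {f : Perm D} (hf : TF f) {n : ℕ} {g : Fin n → D} (h : (tri f (List.ofFn g)).Nodup)
    {i j : Fin n} {s t : Fin 3} (he : (f ^ (s : ℕ)) (g i) = (f ^ (t : ℕ)) (g j)) : i = j ∧ s = t := by
  rw [pl_tri, List.nodup_flatMap] at h
  have hij : i = j := by
    by_contra hne
    have h3 : Function.onFun List.Disjoint (fun i => [g i, f (g i), f (f (g i))]) i j := by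
      have h4 := h.2
      rw [List.pairwise_iff_getElem] at h4
      rcases lt_or_gt_of_ne hne with h5 | h5
      · have h6 := h4 i j (by simp) (by simp) h5
        simpa using h6
      · have h6 := h4 j i (by simp) (by simp) h5
        have h7 : Function.onFun List.Disjoint (fun i => [g i, f (g i), f (f (g i))]) j i := by simpa using h6
        exact h7.symm
    exact h3 (pl_mem (g i) s) (he ▸ pl_mem (g j) t)
  subst hij
  refine ⟨rfl, ?_⟩
  have h3 := hf.three (g i)
  have hn := pl_three hf (g i)
  simp only [List.nodup_cons, List.mem_cons, List.not_mem_nil, or_false, not_or, List.nodup_nil, and_true,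
    not_false_eq_true] at hn
  obtain ⟨⟨n1, n2⟩, n3⟩ := hn
  have e0 : (f ^ ((0 : Fin 3) : ℕ)) (g i) = g i := rfl
  have e1 : (f ^ ((1 : Fin 3) : ℕ)) (g i) = f (g i) := by
    show (f ^ 1) (g i) = _
    rw [pow_one]
  have e2 : (f ^ ((2 : Fin 3) : ℕ)) (g i) = f (f (g i)) := rfl
  fin_cases s <;> fin_cases t
  · rfl
  · exact absurd (e0.symm.trans (he.trans e1)) n1
  · exact absurd (e0.symm.trans (he.trans e2)) n2
  · exact absurd (e1.symm.trans (he.trans e0)) (fun h => n1 h.symm)
  · rfl
  · exact absurd (e1.symm.trans (he.trans e2)) n3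
  · exact absurd (e2.symm.trans (he.trans e0)) (fun h => n2 h.symm)
  · exact absurd (e2.symm.trans (he.trans e1)) (fun h => n3 h.symm)
  · rfl

private theorem pl_len (f : Perm D) (bs : List D) : (tri f bs).length = 3 * bs.length := by
  induction bs with
  | nil => rfl
  | cons b l ih =>
    have h1 : tri f (b :: l) = [b, f b, f (f b)] ++ tri f l := rfl
    rw [h1, List.length_append, ih, List.length_cons]
    simp only [List.length_cons, List.length_nil]
    ring

theorem pl_card {f : Perm D} (hf : TF f) {m : ℕ} (hm : 1 ≤ m) (hD : Fintype.card D = 6 * m) (w : D) :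
    (2 * m - 1).factorial * 3 ^ (2 * m - 1) ≤
      {bs : List D | bs.length = 2 * m - 1 ∧ (tri f (f w :: bs)).Nodup}.ncard := by
  classical
  obtain ⟨rs, h1, h2⟩ := UN39.lawa_ext hf (Fintype.card D) [f w] (pl_three hf (f w)) (by omega)
  have hlen : (tri f ([f w] ++ rs)).length = 6 * m := by
    rw [← hD, ← List.toFinset_card_of_nodup h1, ← Finset.card_univ]
    congr 1
    ext d
    simp only [List.mem_toFinset, Finset.mem_univ, iff_true]
    exact h2 d
  rw [pl_len, List.length_append, List.length_singleton] at hlen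
  have hn : rs.length = 2 * m - 1 := by omega
  obtain ⟨n, hnn⟩ : ∃ n, n = 2 * m - 1 := ⟨_, rfl⟩
  rw [← hnn] at hn ⊢
  subst hn
  have h3 : (tri f (f w :: rs)).Nodup := h1
  have h4 : rs = List.ofFn rs.get := (List.ofFn_get rs).symm
  have h5 : tri f (f w :: rs) = [f w, f (f w), f (f (f w))] ++ tri f rs := rfl
  have h6 : (tri f (List.ofFn rs.get)).Nodup := by
    rw [← h4]
    rw [h5] at h3
    exact (List.nodup_append.1 h3).2.1
  let Φ : Perm (Fin rs.length) × (Fin rs.length → Fin 3) → List D := fun p =>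
    List.ofFn fun i => (f ^ ((p.2 i : Fin 3) : ℕ)) (rs.get (p.1 i))
  have hmem : ∀ p, Φ p ∈ {bs : List D | bs.length = rs.length ∧ (tri f (f w :: bs)).Nodup} := by
    intro p
    refine ⟨by simp [Φ], ?_⟩
    have h7 : (tri f (Φ p)).Perm (tri f rs) := by
      have h8 : (tri f (Φ p)).Perm (tri f (List.ofFn (rs.get ∘ p.1))) := by
        show (tri f (List.ofFn fun i => (f ^ ((p.2 i : Fin 3) : ℕ)) (rs.get (p.1 i)))).Perm _
        rw [pl_tri, pl_tri]
        refine List.Perm.flatMap_left _ fun i _ => ?_
        exact pl_rot hf (rs.get (p.1 i)) (p.2 i)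
      have h9 : (tri f (List.ofFn (rs.get ∘ p.1))).Perm (tri f (List.ofFn rs.get)) :=
        List.Perm.flatMap_right _ (Equiv.Perm.ofFn_comp_perm p.1 rs.get)
      have h10 := h8.trans h9
      rw [← h4] at h10
      exact h10
    have h11 : tri f (f w :: Φ p) = [f w, f (f w), f (f (f w))] ++ tri f (Φ p) := rfl
    rw [h11]
    rw [h5] at h3
    exact (List.Perm.nodup_iff (List.Perm.append_left _ h7)).2 h3
  have hinj : Function.Injective Φ := by
    intro p p' hp
    have h7 := List.ofFn_injective hp
    have h8 : ∀ i, p.1 i = p'.1 i ∧ p.2 i = p'.2 i := fun i => pl_inj hf h6 (congrFun h7 i)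
    refine Prod.ext (Equiv.ext fun i => (h8 i).1) (funext fun i => (h8 i).2)
  have hfin : {bs : List D | bs.length = rs.length ∧ (tri f (f w :: bs)).Nodup}.Finite :=
    (List.finite_length_eq D rs.length).subset fun bs hbs => hbs.1
  have hsub : Set.range Φ ⊆ {bs : List D | bs.length = rs.length ∧ (tri f (f w :: bs)).Nodup} := by
    rintro _ ⟨p, rfl⟩
    exact hmem p
  refine le_trans (le_of_eq ?_) (Set.ncard_le_ncard hsub hfin)
  rw [← Set.image_univ, Set.ncard_image_of_injective _ hinj, Set.ncard_univ, Nat.card_eq_fintype_card,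
    Fintype.card_prod, Fintype.card_perm, Fintype.card_fun, Fintype.card_fin, Fintype.card_fin]

end UA39
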